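import Pool.Agent.H390R3.Cj.MachB
import Pool.Agent.Helper948.Conj.Prim

set_option autoImplicit false

/-! Concrete lists of words for the second frame, and their computability. -/

namespace Pool.Agent.Helper948.Conj

namespace Dat

variable (D : Dat)

/-- numbers of the states of the drained automaton -/
def sidxB : Option St → ℕ
  | none => 9
  | some q => sidx q

/-- the frame -/
noncomputable def frB (N : ℕ) : Frm ℕ D.Cel := (D.mach N).dr.frm D.code 0 D.code_inj D.code_ne

def LnB (N : ℕ) : ℕ := 10 * (D.Gn N + 1) + 2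

def tnB (N : ℕ) (q : Option St) : ℕ := 1 + sidxB q * (D.Gn N + 1)

def stsB : List (Option St) := none :: sts.map some

theorem mem_stsB (q : Option St) : q ∈ stsB := by
  rcases q with _ | q
  · simp [stsB]
  · simp [stsB, mem_sts q]

theorem LnB_eq (N : ℕ) : (D.mach N).dr.L = D.LnB N := rfl

theorem tnB_eq (N : ℕ) (q : Option St) : (D.mach N).dr.tq q = D.tnB N q := by
  rcases q with _ | q <;> rfl

theorem WnB_eq (N : ℕ) : (D.mach N).dr.W = D.Wn N := rfl

theorem o_eq (N : ℕ) : (D.frB N).o = 1 := by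
  change 1 + sidx none * _ = 1
  simp [sidx]

theorem mem_celsB (N : ℕ) (c : D.Cel) : c ∈ D.cels N ↔ c ∈ (D.mach N).dr.cells := Iff.rfl

/-- transitions -/
def dlB (N : ℕ) (X : D.Bk) : Option St → List (ℕ × ℕ × Option St)
  | none => [(0, 0, none), (0, 1, none)]
  | some q => (D.dl N X q).map (fun t => (t.1, t.2.1, some t.2.2)) ++
      (if D.exb X q = true then [(0, 0, none)] else [])

theorem dlB_eq (N : ℕ) (X : D.Bk) (q : Option St) : D.dlB N X q = (D.mach N).dr.del X q := by
  rcases q with _ | q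
  · rfl
  · change _ = ((D.mach N).del X q).map _ ++ _
    simp only [dlB]
    rw [dl_eq]
    congr 1
    by_cases h : D.exb X q = true
    · rw [if_pos h, if_pos (show (D.mach N).blk.ex X q from (D.exb_iff X q).1 h)]
    · rw [if_neg h, if_neg (show ¬ (D.mach N).blk.ex X q from fun h' => h ((D.exb_iff X q).2 h'))]

theorem RcB_iff (N : ℕ) (c d : D.Cel) : D.Rc N c d ↔ (D.mach N).dr.R c d := D.Rc_iff N c d

def baseB1 (N : ℕ) : List (List ℕ) :=
  (D.cels N).flatMap fun c => (D.cels N).flatMap fun d => stsB.flatMap fun q =>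
    if c.2 = 0 then [] else [D.sg c (D.tnB N q) (D.LnB N) ++ D.sg d 0 (D.tnB N q)]

def baseB2 (N : ℕ) : List (List ℕ) :=
  D.bks.flatMap fun X => stsB.flatMap fun q => (D.dlB N X q).flatMap fun t =>
    (List.range t.1).map fun g' => [D.code (X, 0) (D.tnB N q + g')]

def baseB3 (N : ℕ) : List (List ℕ) :=
  D.bks.flatMap fun X => stsB.flatMap fun q => (D.dlB N X q).map fun t =>
    D.wx X (D.LnB N) (D.tnB N q + t.1) ((t.2.1 + 1) * D.LnB N + D.tnB N t.2.2 - (D.tnB N q + t.1))

def baseB4 (N : ℕ) : List (List ℕ) :=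
  D.bks.map fun X => D.wx X (D.LnB N) (D.tnB N none) (2 * D.LnB N - D.tnB N none)

def baseLB (N : ℕ) : List (List ℕ) := D.baseB1 N ++ D.baseB2 N ++ D.baseB3 N ++ D.baseB4 N

theorem mem_baseLB (N : ℕ) (w : List ℕ) : w ∈ D.baseLB N ↔ (D.frB N).base w := by
  change _ ↔ (D.mach N).dr.Base D.code w
  unfold baseLB
  simp only [List.mem_append]
  constructor
  · rintro (((h | h) | h) | h)
    · simp only [baseB1, List.mem_flatMap] at h
      obtain ⟨c, hc, d, hd, q, _, h⟩ := h
      split_ifs at h with h0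
      · simp at h
      · simp only [List.mem_singleton] at h
        rw [h, sg_eq, sg_eq]
        obtain ⟨X, x⟩ := c
        have hx := ((D.mach N).dr.mem_cells _).1 hc
        have h1 := Blk.Base.cruise (M := (D.mach N).dr) (lt := D.code) X x d q
          (by simp at h0; omega) hx hd
        rw [tnB_eq, LnB_eq] at h1
        exact h1
    · simp only [baseB2, List.mem_flatMap, List.mem_map, List.mem_range] at h
      obtain ⟨X, _, q, _, ⟨g, l, q'⟩, ht, g', hg', rfl⟩ := h
      rw [dlB_eq] at ht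
      have h1 := Blk.Base.inside (M := (D.mach N).dr) (lt := D.code) X q g l q' g' ht hg'
      rw [tnB_eq] at h1
      exact h1
    · simp only [baseB3, List.mem_flatMap, List.mem_map] at h
      obtain ⟨X, _, q, _, ⟨g, l, q'⟩, ht, rfl⟩ := h
      rw [dlB_eq] at ht
      rw [wx_eq]
      have h1 := Blk.Base.jump (M := (D.mach N).dr) (lt := D.code) X q g l q' ht
      rw [tnB_eq, tnB_eq, LnB_eq] at h1
      exact h1
    · simp only [baseB4, List.mem_map] at h
      obtain ⟨X, _, rfl⟩ := h
      rw [wx_eq]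
      have h1 := Blk.Base.exit (M := (D.mach N).dr) (lt := D.code) X none rfl
      rw [tnB_eq, LnB_eq] at h1
      exact h1
  · intro h
    cases h with
    | cruise X x d q h1 h2 h3 =>
      left; left; left
      simp only [baseB1, List.mem_flatMap]
      refine ⟨(X, x), ((D.mach N).dr.mem_cells _).2 h2, d, h3, q, mem_stsB q, ?_⟩
      rw [if_neg (by simp; omega), sg_eq, sg_eq, tnB_eq, LnB_eq]
      exact List.mem_singleton.2 rfl
    | inside X q g l q' g' h1 h2 =>
      left; left; right
      simp only [baseB2, List.mem_flatMap, List.mem_map, List.mem_range]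
      exact ⟨X, D.mem_bks X, q, mem_stsB q, (g, l, q'), by rw [dlB_eq]; exact h1, g', h2,
        by rw [tnB_eq]⟩
    | jump X q g l q' h1 =>
      left; right
      simp only [baseB3, List.mem_flatMap, List.mem_map]
      refine ⟨X, D.mem_bks X, q, mem_stsB q, (g, l, q'), by rw [dlB_eq]; exact h1, ?_⟩
      rw [wx_eq, tnB_eq, tnB_eq, LnB_eq]
    | exit X q h1 =>
      right
      obtain rfl : q = none := h1
      simp only [baseB4, List.mem_map]
      refine ⟨X, D.mem_bks X, ?_⟩
      rw [wx_eq, tnB_eq, LnB_eq]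

def ToB (N : ℕ) (c : D.Cel) : List ℕ := D.sg c 0 (D.LnB N)

def poB (N : ℕ) (c : D.Cel) : List ℕ := D.sg c 1 (D.LnB N)

/-- the first cell -/
def stc : D.Cel := ((none, none), 0)

theorem ToB_eq (N : ℕ) (c : D.Cel) : D.ToB N c = (D.frB N).T c := D.sg_eq _ _ _

theorem poB_eq (N : ℕ) (c : D.Cel) : D.poB N c = (D.frB N).p c := by
  unfold poB
  rw [sg_eq]
  unfold Frm.p
  rw [o_eq]
  rfl

def w0L (N : ℕ) : List (List ℕ) :=
  (D.cels N).map fun b => 0 :: (D.poB N D.stc ++ D.poB N b)

def w1L (N : ℕ) : List (List ℕ) :=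
  (D.cels N).flatMap fun c =>
    if D.Rc N D.stc c then [0 :: (D.poB N D.stc ++ D.sg c 0 1)] else []

def w2L (N : ℕ) : List (List ℕ) :=
  (D.cels N).flatMap fun c => (D.cels N).map fun b => D.poB N c ++ D.poB N b

/-- the core words other than the tokens -/
def CL0 (N : ℕ) : List (List ℕ) := [0] :: (D.baseLB N ++ D.w0L N ++ D.w1L N ++ D.w2L N)

theorem CL0_ok (N : ℕ) (u : List ℕ) (hu : u ∈ D.CL0 N) :
    (D.frB N).Cr u ∧ ∀ d, u ≠ (D.frB N).T d := by
  have hoL := (D.frB N).hoL
  have ho := (D.frB N).ho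
  simp only [CL0, List.mem_cons, List.mem_append] at hu
  rcases hu with rfl | ((h | h) | h) | h
  · refine ⟨Frm.Cr.eta, fun d h => ?_⟩
    rw [Frm.T_cons] at h
    exact D.code_ne _ _ (List.cons.inj h).1.symm
  · obtain ⟨c, t, l, h1, _, h2⟩ := (D.frB N).hb u ((D.mem_baseLB N u).1 h)
    refine ⟨Frm.Cr.base u ((D.mem_baseLB N u).1 h), fun d h => ?_⟩
    rw [Frm.T_cons, h2] at h
    have := (D.code_inj _ _ _ _ (List.cons.inj h).1).2
    omega
  · simp only [w0L, List.mem_map] at h
    obtain ⟨b, hb, rfl⟩ := h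
    rw [poB_eq, poB_eq]
    refine ⟨Frm.Cr.w0 b hb, fun d h => ?_⟩
    rw [Frm.T_cons] at h
    exact D.code_ne _ _ (List.cons.inj h).1.symm
  · simp only [w1L, List.mem_flatMap] at h
    obtain ⟨c, hc, h⟩ := h
    split_ifs at h with h0
    · simp only [List.mem_singleton] at h
      rw [h, poB_eq, sg_eq]
      have h3 := Frm.Cr.w1 (F := D.frB N) c hc ((D.RcB_iff N _ c).1 h0)
      rw [o_eq] at h3
      refine ⟨h3, fun d h => ?_⟩
      rw [Frm.T_cons] at h
      exact D.code_ne _ _ (List.cons.inj h).1.symm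
    · simp at h
  · simp only [w2L, List.mem_flatMap, List.mem_map] at h
    obtain ⟨c, hc, b, hb, rfl⟩ := h
    rw [poB_eq, poB_eq]
    refine ⟨Frm.Cr.w2 c b hc hb, fun d h => ?_⟩
    rw [Frm.T_cons, Frm.p_cons, List.cons_append] at h
    have := (D.code_inj _ _ _ _ (List.cons.inj h).1).2
    omega

theorem mem_CL (N : ℕ) (w : List ℕ) : (w ∈ D.CL0 N ∨ ∃ d ∈ D.cels N, w = (D.frB N).T d) ↔
    (D.frB N).Cr w := by
  constructor
  · rintro (h | ⟨d, hd, rfl⟩)
    · exact (D.CL0_ok N w h).1
    · exact Frm.Cr.tok d hd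
  · intro h
    cases h with
    | eta => left; simp [CL0, show (D.frB N).eta = 0 from rfl]
    | tok d hd => right; exact ⟨d, hd, rfl⟩
    | base _ hy =>
      left
      simp only [CL0, List.mem_cons, List.mem_append]
      right; left; left; left
      exact (D.mem_baseLB N w).2 hy
    | w0 b hb =>
      left
      simp only [CL0, List.mem_cons, List.mem_append]
      right; left; left; right
      simp only [w0L, List.mem_map]
      exact ⟨b, hb, by rw [poB_eq, poB_eq]; rfl⟩
    | w1 c hc hR =>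
      left
      simp only [CL0, List.mem_cons, List.mem_append]
      right; left; right
      simp only [w1L, List.mem_flatMap]
      refine ⟨c, hc, ?_⟩
      rw [if_pos (show D.Rc N D.stc c from (D.RcB_iff N _ c).2 hR), poB_eq, sg_eq, o_eq]
      exact List.mem_singleton.2 rfl
    | w2 c b hc hb =>
      left
      simp only [CL0, List.mem_cons, List.mem_append]
      right; right
      simp only [w2L, List.mem_flatMap, List.mem_map]
      exact ⟨c, hc, b, hb, by rw [poB_eq, poB_eq]⟩

def yB3 (N : ℕ) : List (List ℕ) :=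
  (D.cels N).flatMap fun b => (D.CL0 N).map fun u => D.poB N b ++ u

def yB4 (N : ℕ) : List (List ℕ) :=
  (D.cels N).flatMap fun b => (D.cels N).flatMap fun d =>
    if D.Rc N b d then [] else [D.poB N b ++ D.ToB N d]

/-- the list `Y` -/
def YLB (N : ℕ) : List (List ℕ) :=
  D.CL0 N ++ (D.cels N).map (D.ToB N) ++ D.yB3 N ++ D.yB4 N

/-- the list `X` -/
def XLB (N : ℕ) : List (List ℕ) := (0 :: D.poB N D.stc) :: D.YLB N

theorem mem_YLB (N : ℕ) (w : List ℕ) : w ∈ D.YLB N ↔ (D.frB N).Y2 w := by
  simp only [YLB, List.mem_append]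
  constructor
  · rintro (((h | h) | h) | h)
    · exact Frm.Y2.core _ (D.CL0_ok N w h).1
    · rw [List.mem_map] at h
      obtain ⟨d, hd, rfl⟩ := h
      rw [ToB_eq]
      exact Frm.Y2.core _ (Frm.Cr.tok d hd)
    · simp only [yB3, List.mem_flatMap, List.mem_map] at h
      obtain ⟨b, hb, u, hu, rfl⟩ := h
      obtain ⟨h1, h3⟩ := D.CL0_ok N u hu
      rw [poB_eq]
      exact Frm.Y2.h b u hb h1 (fun d _ => h3 d)
    · simp only [yB4, List.mem_flatMap] at h
      obtain ⟨b, hb, d, hd, h⟩ := h
      split_ifs at h with h0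
      · simp at h
      · simp only [List.mem_singleton] at h
        rw [h, poB_eq, ToB_eq]
        refine Frm.Y2.h b _ hb (Frm.Cr.tok d hd) ?_
        intro d' hd' h
        have := (D.frB N).T_inj h
        subst this
        exact h0 ((D.RcB_iff N b d).2 hd')
  · intro h
    cases h with
    | core _ h =>
      rcases (D.mem_CL N w).2 h with h | ⟨d, hd, rfl⟩
      · left; left; left; exact h
      · left; left; right
        rw [List.mem_map]
        exact ⟨d, hd, D.ToB_eq N d⟩
    | h b u hb hu hR =>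
      rcases (D.mem_CL N u).2 hu with h | ⟨d, hd, rfl⟩
      · left; right
        simp only [yB3, List.mem_flatMap, List.mem_map]
        exact ⟨b, hb, u, h, by rw [poB_eq]⟩
      · right
        simp only [yB4, List.mem_flatMap]
        refine ⟨b, hb, d, hd, ?_⟩
        rw [if_neg (fun h => hR d ((D.RcB_iff N b d).1 h) rfl), poB_eq, ToB_eq]
        exact List.mem_singleton.2 rfl

theorem mem_XLB (N : ℕ) (w : List ℕ) : w ∈ D.XLB N ↔ (D.frB N).X2 w := by
  simp only [XLB, List.mem_cons, mem_YLB, Frm.X2]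
  rw [poB_eq]
  constructor
  · rintro (h | h)
    · right; exact h
    · left; exact h
  · rintro (h | h)
    · right; exact h
    · left; exact h

end Dat

end Pool.Agent.Helper948.Conj
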