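import Pool.Agent.H390R3.Cj.PrimB
import Pool.Agent.Helper948.Conj.Final

set_option autoImplicit false

/-! The final reduction, with finite solutions. -/

namespace Pool.Agent.Helper948.Conj

open Pool.Agent.Helper948.Erode

section Lists

variable (D : Dat) (N : ℕ)

theorem mem_YLB_ne (w : List ℕ) (h : w ∈ D.YLB N) : w ≠ [] :=
  Frm.Y2_ne _ w ((D.mem_YLB N w).1 h)

theorem letters_XLB (w : List ℕ) (h : w ∈ D.XLB N) : w ≠ [] ∧ ∀ a ∈ w, a < D.knB N := by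
  refine ⟨?_, ?_⟩
  · rcases List.mem_cons.1 h with rfl | h
    · simp
    · exact mem_YLB_ne D N w h
  · intro a ha
    exact Dat.lt_bnd _ a (List.mem_flatten.2 ⟨w, h, ha⟩)

theorem letters_YLB (w : List ℕ) (h : w ∈ D.YLB N) : w ≠ [] ∧ ∀ a ∈ w, a < D.knB N :=
  letters_XLB D N w (List.mem_cons_of_mem _ h)

theorem fac_lettersB {n : ℕ} {z : List ℕ} (h : Fac (D.frB N).Y2 n z) : ∀ a ∈ z, a < D.knB N := by
  induction h with
  | nil => simp
  | @cons y w n hy _ ih =>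
    intro a ha
    rcases List.mem_append.1 ha with ha | ha
    · exact (letters_YLB D N y ((D.mem_YLB N y).2 hy)).2 a ha
    · exact ih a ha

theorem fac_finite (n : ℕ) : {z | Fac (D.frB N).Y2 n z}.Finite := by
  induction n with
  | zero =>
    refine (Set.finite_singleton []).subset ?_
    intro z hz
    cases hz
    rfl
  | succ n ih =>
    have h1 : (Set.image2 (fun (y w : List ℕ) => y ++ w) {y | y ∈ D.YLB N}
      {z | Fac (D.frB N).Y2 n z}).Finite := Set.Finite.image2 _ (List.finite_toSet _) ih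
    refine h1.subset ?_
    intro z hz
    cases hz with
    | @cons y w _ hy hw => exact ⟨y, (D.mem_YLB N y).2 hy, w, hw, rfl⟩

/-- no run: a finite solution over the alphabet -/
theorem exists_solutionB (h : ¬ (D.mach N).Run) : ∃ Z : Set (List ℕ), Z.Finite ∧ Z.Nonempty ∧
    (∀ z ∈ Z, ∀ a ∈ z, a < D.knB N) ∧
    {w | ∃ x ∈ D.XLB N, ∃ z ∈ Z, w = x ++ z} = {w | ∃ z ∈ Z, ∃ y ∈ D.YLB N, w = z ++ y} := by
  obtain ⟨n0, hn0⟩ := (D.mach N).solutionB D.code 0 D.code_inj D.code_ne h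
  refine ⟨{z | Fac (D.frB N).Y2 n0 z}, fac_finite D N n0, ?_, ?_, ?_⟩
  · have : ∀ n, Fac (D.frB N).Y2 n (List.replicate n 0) := by
      intro n
      induction n with
      | zero => exact Fac.nil
      | succ n ih =>
        rw [List.replicate_succ]
        exact Fac.cons (y := [0]) (Frm.Y2.core _ Frm.Cr.eta) ih
    exact ⟨_, this n0⟩
  · intro z hz
    exact fac_lettersB D N hz
  · have e1 : {w | ∃ x ∈ D.XLB N, ∃ z ∈ {z | Fac (D.frB N).Y2 n0 z}, w = x ++ z} =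
        {w | ∃ x, (D.frB N).X2 x ∧ ∃ z, Fac (D.frB N).Y2 n0 z ∧ w = x ++ z} := by
      ext w
      constructor
      · rintro ⟨x, hx, z, hz, rfl⟩
        exact ⟨x, (D.mem_XLB N x).1 hx, z, hz, rfl⟩
      · rintro ⟨x, hx, z, hz, rfl⟩
        exact ⟨x, (D.mem_XLB N x).2 hx, z, hz, rfl⟩
    have e2 : {w | ∃ z ∈ {z | Fac (D.frB N).Y2 n0 z}, ∃ y ∈ D.YLB N, w = z ++ y} =
        {w | ∃ z, Fac (D.frB N).Y2 n0 z ∧ ∃ y, (D.frB N).Y2 y ∧ w = z ++ y} := by
      ext w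
      constructor
      · rintro ⟨z, hz, y, hy, rfl⟩
        exact ⟨z, hz, y, (D.mem_YLB N y).1 hy, rfl⟩
      · rintro ⟨z, hz, y, hy, rfl⟩
        exact ⟨z, hz, y, (D.mem_YLB N y).2 hy, rfl⟩
    rw [e1, e2]
    exact hn0

/-- a run: no solution -/
theorem no_solution_listsB (h : (D.mach N).Run) (Z : Set (List ℕ)) (hne : Z.Nonempty)
    (hZ : ∀ x ∈ D.XLB N, ∀ z ∈ Z, ∃ z' ∈ Z, ∃ y ∈ D.YLB N, x ++ z = z' ++ y) : False := by
  refine (D.mach N).no_solutionB D.code 0 D.code_inj D.code_ne h Z hne ?_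
  intro x hx z hz
  obtain ⟨z', h1, y, h2, h3⟩ := hZ x ((D.mem_XLB N x).2 hx) z hz
  exact ⟨z', h1, y, (D.mem_YLB N y).1 h2, h3⟩

end Lists

/-- The reduction: there are computable `k, X, Y` with `X = Y ∪ {one word}` such that `X Z = Z Y`
has a finite nonempty solution if a certain undecidable predicate holds, and no nonempty
solution at all otherwise. -/
theorem reductionB : ∃ (k : ℕ → ℕ) (X Y : ℕ → List (List ℕ)) (P : ℕ → Prop),
    Computable k ∧ Computable X ∧ Computable Y ∧ ¬ ComputablePred P ∧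
    (∀ n, ∀ w ∈ X n, w ≠ [] ∧ ∀ a ∈ w, a < k n) ∧
    (∀ n, ∀ w ∈ Y n, w ≠ [] ∧ ∀ a ∈ w, a < k n) ∧
    (∀ n, P n → ∃ Z : Set (List ℕ), Z.Finite ∧ Z.Nonempty ∧ (∀ z ∈ Z, ∀ a ∈ z, a < k n) ∧
      {w | ∃ x ∈ X n, ∃ z ∈ Z, w = x ++ z} = {w | ∃ z ∈ Z, ∃ y ∈ Y n, w = z ++ y}) ∧
    (∀ n, ¬ P n → ∀ Z : Set (List ℕ), Z.Nonempty →
      (∀ x ∈ X n, ∀ z ∈ Z, ∃ z' ∈ Z, ∃ y ∈ Y n, x ++ z = z' ++ y) → False) := by
  obtain ⟨Q, hQ, M, q0, N, _, hN, hund⟩ := exists_sys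
  obtain ⟨nK, ⟨e⟩⟩ := Finite.exists_equiv_fin (Q × (Bool → Fin M.B))
  let D := datOf M q0 e
  refine ⟨fun n => D.knB (N n), fun n => D.XLB (N n), fun n => D.YLB (N n),
    fun n => M.Halts (some q0) (ini (N n)), D.knB_pr.to_comp.comp hN, D.XLB_pr.to_comp.comp hN,
    D.YLB_pr.to_comp.comp hN, hund, fun n w h => letters_XLB D _ w h,
    fun n w h => letters_YLB D _ w h, ?_, ?_⟩
  · intro n hP
    exact exists_solutionB D (N n) (fun hr => not_halts_of_run M q0 e _ hr hP)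
  · intro n hP Z hne hZ
    exact no_solution_listsB D (N n) (run_of_not_halts M q0 e _ hP) Z hne hZ

end Pool.Agent.Helper948.Conj
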