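import Pool.Agent.Helper948.Conj.NoSol

set_option autoImplicit false

/-! A second frame for the conjugacy problem, with finite solutions: the set `Z` will be the set
of all products of exactly `K` words of the set `Y2` defined here. -/

namespace Pool.Agent.Helper948.Conj

namespace Frm

variable {α C : Type} (F : Frm α C)

/-- the core words -/
inductive Cr : List α → Prop
  | eta : Cr [F.eta]
  | tok (d : C) : d ∈ F.cells → Cr (F.T d)
  | base (y : List α) : F.base y → Cr y
  | w0 (b : C) : b ∈ F.cells → Cr (F.eta :: (F.p F.star ++ F.p b))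
  | w1 (c : C) : c ∈ F.cells → F.R F.star c → Cr (F.eta :: (F.p F.star ++ seg F.lt c 0 F.o))
  | w2 (c b : C) : c ∈ F.cells → b ∈ F.cells → Cr (F.p c ++ F.p b)

/-- the set `Y` of the second frame -/
inductive Y2 : List α → Prop
  | core (s : List α) : F.Cr s → Y2 s
  | h (b : C) (s : List α) : b ∈ F.cells → F.Cr s → (∀ d, F.R b d → s ≠ F.T d) →
      Y2 (F.p b ++ s)

/-- the set `X` of the second frame -/
def X2 (w : List α) : Prop := F.Y2 w ∨ w = F.eta :: F.p F.star

/-- a good list, exact version -/
def GoodE (l : List C) : Prop := Fac F.Y2 l.length (F.p F.star ++ F.Tl l)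

/-- a good list, inequality version -/
def GoodI (l : List C) : Prop := ∃ n, l.length ≤ n ∧ Fac F.Y2 n (F.p F.star ++ F.Tl l)

theorem Tl_nil : F.Tl [] = [] := rfl

theorem Tl_cons (d : C) (l : List C) : F.Tl (d :: l) = F.T d ++ F.Tl l := by simp [Tl]

/-- the last cell of a legal list -/
def lst (c : C) : List C → C
  | [] => c
  | d :: l => lst d l

/-- cruising in mode one over a legal list -/
theorem cruise (l : List C) : ∀ c ∈ F.cells, F.Leg c l →
    lst c l ∈ F.cells ∧ ∃ v, Fac F.Y2 l.length v ∧ F.p c ++ F.Tl l = v ++ F.p (lst c l) := by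
  induction l with
  | nil =>
    intro c hc _
    refine ⟨hc, [], Fac.nil, ?_⟩
    rw [Tl_nil]; simp [lst]
  | cons d l ih =>
    intro c hc h
    have hd := F.hR c d h.1
    obtain ⟨h1, v, h2, h3⟩ := ih d hd h.2
    refine ⟨h1, (F.p c ++ seg F.lt d 0 F.o) ++ v, ?_, ?_⟩
    · exact Fac.cons (Y2.core _ (Cr.base _ (F.hm c d hc h.1))) h2
    · rw [Tl_cons, ← List.append_assoc, p_T, List.append_assoc _ (F.p d), h3]
      simp [lst]

/-- the closure property -/
theorem close (l : List C) (hl : F.Leg F.star l) (y : List α) (hy : F.Y2 y)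
    (hn : ∀ d, F.R (lst F.star l) d → y ≠ F.T d) :
    Fac F.Y2 (l.length + 2) (F.eta :: (F.p F.star ++ F.Tl l ++ y)) := by
  obtain ⟨h1, v, h2, h3⟩ := F.cruise l F.star F.hstar hl
  cases hy with
  | core _ hs =>
    rw [h3, List.append_assoc]
    have h4 : Fac F.Y2 1 (F.p (lst F.star l) ++ y) := Fac.one (Y2.h _ _ h1 hs hn)
    have h5 := Fac.cons (y := [F.eta]) (Y2.core _ Cr.eta) (h2.append h4)
    simpa using h5
  | h b s hb hs hR =>
    cases l with
    | nil =>
      have h4 : Fac F.Y2 1 s := Fac.one (Y2.core _ hs)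
      have h5 := Fac.cons (Y2.core _ (Cr.w0 b hb)) h4
      rw [Tl_nil]
      simpa using h5
    | cons c l =>
      have hc := F.hR _ _ hl.1
      obtain ⟨h6, v', h7, h8⟩ := F.cruise l c hc hl.2
      have h4 : Fac F.Y2 1 s := Fac.one (Y2.core _ hs)
      have h9 : Fac F.Y2 1 (F.p (lst c l) ++ F.p b) := Fac.one (Y2.core _ (Cr.w2 _ b h6 hb))
      have h10 := Fac.cons (Y2.core _ (Cr.w1 c hc hl.1)) (h7.append (h9.append h4))
      have e : F.eta :: (F.p F.star ++ F.Tl (c :: l) ++ (F.p b ++ s)) =
          (F.eta :: (F.p F.star ++ seg F.lt c 0 F.o)) ++ (v' ++ (F.p (lst c l) ++ F.p b ++ s)) := by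
        rw [Tl_cons]
        have e1 : F.p F.star ++ (F.T c ++ F.Tl l) ++ (F.p b ++ s) =
          (F.p F.star ++ F.T c) ++ (F.Tl l ++ (F.p b ++ s)) := by simp
        rw [e1, p_T]
        have e2 : F.p F.star ++ seg F.lt c 0 F.o ++ F.p c ++ (F.Tl l ++ (F.p b ++ s)) =
          F.p F.star ++ seg F.lt c 0 F.o ++ ((F.p c ++ F.Tl l) ++ (F.p b ++ s)) := by simp
        rw [e2, h8]
        simp
      rw [e]
      have e3 : (c :: l).length + 2 = l.length + (1 + 1) + 1 := by simp
      rw [e3]
      exact h10

/-- a sequence of words of `Y2` is legal or deviates from the legal ones -/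
theorem dichB (ys : List (List α)) : ∀ c ∈ F.cells,
    (∃ l : List C, F.Leg c l ∧ ys = l.map F.T) ∨
      ∃ (l : List C) (y : List α) (r : List (List α)), F.Leg c l ∧ ys = l.map F.T ++ y :: r ∧
        ∀ d, F.R (lst c l) d → y ≠ F.T d := by
  induction ys with
  | nil => intro c _; exact Or.inl ⟨[], trivial, rfl⟩
  | cons y ys ih =>
    intro c hc
    by_cases h : ∃ d, F.R c d ∧ y = F.T d
    · obtain ⟨d, hd, rfl⟩ := h
      rcases ih d (F.hR c d hd) with ⟨l, h1, h2⟩ | ⟨l, y, r, h1, h2, h3⟩
      · exact Or.inl ⟨d :: l, ⟨hd, h1⟩, by simp [h2]⟩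
      · right
        exact ⟨d :: l, y, r, ⟨hd, h1⟩, by simp [h2], h3⟩
    · right
      push Not at h
      exact ⟨[], y, ys, trivial, rfl, h⟩

/-- the list is legal and all its initial parts are bad -/
def OkB (G : List C → Prop) (l : List C) : Prop := F.Leg F.star l ∧ ∀ l', l' <+: l → ¬ G l'

theorem OkB.append {G : List C → Prop} {l r : List C} (h : F.OkB G (l ++ r)) : F.OkB G l :=
  ⟨F.Leg_append l r _ h.1, fun l' hl => h.2 l' (hl.trans (List.prefix_append l r))⟩

/-- arbitrarily long extensions -/
def InfB (G : List C → Prop) (l : List C) : Prop := ∀ K, ∃ r : List C, r.length = K ∧ F.OkB G (l ++ r)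

theorem InfB.step {G : List C → Prop} {l : List C} (h : F.InfB G l) : ∃ d, F.InfB G (l ++ [d]) := by
  classical
  by_contra hcon
  push Not at hcon
  have h1 : ∀ d, ∃ K, ∀ r : List C, r.length = K → ¬ F.OkB G (l ++ [d] ++ r) := by
    intro d
    have := hcon d
    unfold InfB at this
    push Not at this
    obtain ⟨K, hK⟩ := this
    exact ⟨K, hK⟩
  choose f hf using h1
  obtain ⟨M, hM⟩ : ∃ M, ∀ d ∈ F.cells, f d ≤ M := by
    refine ⟨(F.cells.map f).sum, ?_⟩
    intro d hd
    exact List.single_le_sum (by simp) _ (List.mem_map.2 ⟨d, hd, rfl⟩)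
  obtain ⟨r, hr, hok⟩ := h (M + 1)
  cases r with
  | nil => simp at hr
  | cons d r =>
    have hd : d ∈ F.cells := F.Leg_mem l r d _ hok.1
    have h2 := hM d hd
    simp only [List.length_cons, Nat.add_right_cancel_iff] at hr
    refine hf d (r.take (f d)) (by simp; omega) ?_
    have h3 : l ++ d :: r = (l ++ [d] ++ r.take (f d)) ++ r.drop (f d) := by
      simp
    rw [h3] at hok
    exact OkB.append F hok

/-- König's lemma -/
theorem konigB {G : List C → Prop} (h : F.InfB G []) :
    ∃ s : ℕ → C, s 0 = F.star ∧ (∀ i, F.R (s i) (s (i + 1))) ∧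
    ∀ m, ¬ G ((List.range m).map fun i => s (i + 1)) := by
  classical
  let nx : {l : List C // F.InfB G l} → {l : List C // F.InfB G l} := fun l =>
    ⟨l.1 ++ [(InfB.step F l.2).choose], (InfB.step F l.2).choose_spec⟩
  let f : ℕ → {l : List C // F.InfB G l} := fun n => nx^[n] ⟨[], h⟩
  let t : ℕ → C := fun n => (InfB.step F (f n).2).choose
  have hf : ∀ n, (f (n + 1)).1 = (f n).1 ++ [t n] := by
    intro n
    have : f (n + 1) = nx (f n) := Function.iterate_succ_apply' nx n _
    rw [this]
  have hl : ∀ n, (f n).1 = (List.range n).map t := by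
    intro n
    induction n with
    | zero => rfl
    | succ n ih => rw [hf, ih, List.range_succ, List.map_append]; rfl
  have hok : ∀ n, F.OkB G (f n).1 := by
    intro n
    obtain ⟨r, hr, hr2⟩ := (f n).2 0
    exact OkB.append F hr2
  refine ⟨fun n => match n with | 0 => F.star | n + 1 => t n, rfl, ?_, ?_⟩
  · have key : ∀ n (c : C), F.Leg c ((List.range (n + 1)).map t) →
        F.R (match n with | 0 => c | n + 1 => t n) (t n) := by
      intro n c hc
      have : ∀ (l : List C) (c d : C), F.Leg c (l ++ [d]) → F.R (l.getLast?.getD c) d := by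
        intro l
        induction l with
        | nil => intro c d h; exact h.1
        | cons e l ih =>
          intro c d h
          have := ih e d h.2
          cases l with
          | nil => exact this
          | cons e' l =>
            obtain ⟨x, hx⟩ : ∃ x, (e' :: l).getLast? = some x :=
              ⟨_, List.getLast?_eq_some_getLast (by simp)⟩
            rw [List.getLast?_cons_cons, hx]
            rw [hx] at this
            exact this
      rw [List.range_succ, List.map_append] at hc
      have h2 := this _ _ _ hc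
      cases n with
      | zero => exact h2
      | succ n =>
        rw [List.range_succ, List.map_append] at h2
        simpa using h2
    intro i
    have h1 := (hok (i + 1)).1
    rw [hl] at h1
    have := key i _ h1
    cases i with
    | zero => exact this
    | succ i => exact this
  · intro m
    have := (hok m).2 _ (List.prefix_refl _)
    rw [hl] at this
    exact this

theorem fac_split {Y : List α → Prop} {n m : ℕ} {w : List α} (h : Fac Y (n + m) w) :
    ∃ u v, Fac Y n u ∧ Fac Y m v ∧ w = u ++ v := by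
  obtain ⟨l, h1, h2, h3⟩ := h.exists_list
  refine ⟨(l.take n).flatten, (l.drop n).flatten, ?_, ?_, ?_⟩
  · have := Fac.flatten (Y := Y) (l := l.take n) (fun y hy => h1 y (List.mem_of_mem_take hy))
    rw [List.length_take, h2] at this
    rwa [show min n (n + m) = n by omega] at this
  · have := Fac.flatten (Y := Y) (l := l.drop n) (fun y hy => h1 y (List.mem_of_mem_drop hy))
    rw [List.length_drop, h2] at this
    rwa [show n + m - n = m by omega] at this
  · rw [← List.flatten_append, List.take_append_drop, h3]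

/-- first half: no infinite bad sequence gives a finite solution -/
theorem solutionB (h : ¬ ∃ s : ℕ → C, s 0 = F.star ∧ (∀ i, F.R (s i) (s (i + 1))) ∧
    ∀ m, ¬ F.GoodE ((List.range m).map fun i => s (i + 1))) :
    ∃ K, {w | ∃ x, F.X2 x ∧ ∃ z, Fac F.Y2 K z ∧ w = x ++ z} =
      {w | ∃ z, Fac F.Y2 K z ∧ ∃ y, F.Y2 y ∧ w = z ++ y} := by
  have h1 : ¬ F.InfB F.GoodE [] := fun h' => h (F.konigB h')
  unfold InfB at h1
  push Not at h1
  obtain ⟨K, hK⟩ := h1
  refine ⟨K, ?_⟩
  have key : ∀ z, Fac F.Y2 K z → Fac F.Y2 (K + 1) (F.eta :: (F.p F.star ++ z)) := by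
    intro z hz
    obtain ⟨l, h1, h2, rfl⟩ := hz.exists_list
    rcases F.dichB l F.star F.hstar with ⟨m, hm1, hm2⟩ | ⟨m, y, r, hm1, hm2, hm3⟩
    · have h3 := hK m (by rw [← h2, hm2]; simp)
      unfold OkB at h3
      push Not at h3
      obtain ⟨m', hm', hg⟩ := h3 hm1
      obtain ⟨r, hr⟩ := hm'
      simp only [List.nil_append] at hr
      subst hm2
      subst hr
      have h4 : Fac F.Y2 r.length (F.Tl r) := by
        have := Fac.flatten (Y := F.Y2) (l := r.map F.T) (by
          intro y hy
          exact h1 y (by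
            simp only [List.map_append, List.mem_append]
            right; exact hy))
        rw [List.length_map] at this
        exact this
      have h5 := Fac.cons (y := [F.eta]) (Y2.core _ Cr.eta) (Fac.append hg h4)
      have e : F.eta :: (F.p F.star ++ (List.map F.T (m' ++ r)).flatten) =
        [F.eta] ++ (F.p F.star ++ F.Tl m' ++ F.Tl r) := by
        simp [Tl]
      rw [e]
      have e2 : K + 1 = m'.length + r.length + 1 := by
        simp at h2
        omega
      rw [e2]
      exact h5
    · subst hm2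
      have h5 := F.close m hm1 y (h1 y (by simp)) hm3
      have h6 : Fac F.Y2 r.length r.flatten := Fac.flatten (fun z hz => h1 z (by simp [hz]))
      have e : F.eta :: (F.p F.star ++ (List.map F.T m ++ y :: r).flatten) =
        (F.eta :: (F.p F.star ++ F.Tl m ++ y)) ++ r.flatten := by
        simp [Tl]
      rw [e]
      have e2 : K + 1 = m.length + 2 + r.length := by
        simp at h2
        omega
      rw [e2]
      exact h5.append h6
  ext w
  constructor
  · rintro ⟨x, hx, z, hz, rfl⟩
    have main : Fac F.Y2 (K + 1) (x ++ z) := by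
      rcases hx with hx | rfl
      · exact Fac.cons hx hz
      · exact key z hz
    obtain ⟨u, v, h3, h4, h5⟩ := fac_split main
    refine ⟨u, h3, v, ?_, h5⟩
    cases h4 with
    | @cons y w _ hy hw =>
      cases hw
      rw [List.append_nil]
      exact hy
  · rintro ⟨z, hz, y, hy, rfl⟩
    have h2 := hz.append (Fac.one hy)
    generalize hv : z ++ y = v at h2
    cases h2 with
    | @cons x w _ hx hw => exact ⟨x, Or.inl hx, w, hw, rfl⟩

end Frm

end Pool.Agent.Helper948.Conj
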