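import Pool.Agent.H390R3.Cj.PathB

set_option autoImplicit false

/-! Runs of the machines and the second frame. -/

namespace Pool.Agent.Helper948.Conj

namespace Mach

variable {K : Type} (m : Mach K)

/-- an infinite run gives a sequence of blocks with a potential -/
theorem potential_of_run (h : m.Run) : ∃ Xs : ℕ → K × Option Bool, Xs 0 = m.blk.ini ∧
      (∀ b, m.blk.rho (Xs b) (Xs (b + 1))) ∧ ∃ V : ℕ → St → ℤ,
      (∀ b q g l q', (g, l, q') ∈ m.blk.del (Xs b) q → (g : ℤ) - l + V (b + 1) q' ≤ V b q) ∧
      (∀ b q, m.blk.ex (Xs b) q → 0 ≤ V b q) ∧ V 0 m.blk.m1 ≤ -1 := by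
  obtain ⟨c, k, h0, hk0, hnex, hrun⟩ := h
  have inv : ∀ n, ((gen k n).2.1 = true → (gen k n).2.2 = (k (gen k n).1 true, k (gen k n).1 false)) ∧
      ((gen k n).2.1 = false → (0 < (gen k n).2.2.1 ∨ 0 < (gen k n).2.2.2) ∧ 0 < (gen k n).1) := by
    intro n
    induction n with
    | zero =>
      refine ⟨fun _ => ?_, fun h => ?_⟩
      · simp [gen, hk0]
      · simp [gen] at h
    | succ n ih =>
      rw [gen]
      generalize gen k n = s at ih
      unfold gnext
      split_ifs with h
      · exact ⟨fun _ => rfl, fun h => by simp at h⟩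
      · refine ⟨fun h => by simp at h, fun _ => ?_⟩
        simp only
        have h1 : 0 < (grem s).1 ∨ 0 < (grem s).2 := by
          by_contra hcon
          push Not at hcon
          exact h (Prod.ext (by simp; omega) (by simp; omega))
        refine ⟨h1, ?_⟩
        obtain ⟨i, f, y⟩ := s
        cases f with
        | false => exact (ih.2 rfl).2
        | true =>
          have h2 := ih.1 rfl
          simp only at h2
          subst h2
          simp only [grem] at h1
          by_contra hi
          have : i = 0 := by simpa using hi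
          subst this
          rw [hk0, hk0] at h1
          omega
  have hci : ∀ i, 0 < i → c i ≠ m.ini := by
    intro i hi h
    obtain ⟨i, rfl⟩ : ∃ i', i = i' + 1 := ⟨i - 1, by omega⟩
    have := hnex i
    rw [h] at this
    exact m.hini _ this
  refine ⟨fun n => gblk c (gen k n), ?_, ?_, fun n q => m.GV c k (gen k n) q, ?_, ?_, ?_⟩
  · simp [gen, gblk, h0, blk]
  · intro n
    change ((gblk c (gen k (n + 1))).1 = (gblk c (gen k n)).1 ∧
      (gblk c (gen k (n + 1))).2 ≠ none ∧ (gblk c (gen k n)).1 ≠ m.ini) ∨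
      ((gblk c (gen k (n + 1))).2 = none ∧ m.nex (gblk c (gen k n)).1 (gblk c (gen k (n + 1))).1)
    have hfst : ∀ s : Sg, (gblk c s).1 = c s.1 := by
      rintro ⟨i, _ | _, y⟩ <;> rfl
    have h1 := (inv (n + 1)).2
    rw [gen] at h1 ⊢
    generalize gen k n = s at h1 ⊢
    rw [hfst, hfst]
    unfold gnext at h1 ⊢
    split_ifs at h1 ⊢ with h
    · right
      exact ⟨rfl, hnex _⟩
    · left
      refine ⟨rfl, ?_, hci _ (h1 rfl).2⟩
      simp only [gblk]
      split_ifs <;> simp
  · intro n q g l q' hd
    change (g, l, q') ∈ m.del (gblk c (gen k n)) q at hd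
    change (g : ℤ) - l + m.GV c k (gen k (n + 1)) q' ≤ m.GV c k (gen k n) q
    rw [gen, GV_next]
    have h1 := inv n
    generalize gen k n = s at hd h1
    obtain ⟨i, f, y⟩ := s
    cases f with
    | true =>
      have h2 := h1.1 rfl
      simp only at h2
      subst h2
      have e1 := hrun i
      have e1t : (m.r (c (i + 1)) true : ℤ) + m.B * k (i + 1) true =
        m.a (c i) true * k i true + m.b (c i) true := by exact_mod_cast e1 true
      have e1f : (m.r (c (i + 1)) false : ℤ) + m.B * k (i + 1) false =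
        m.a (c i) false * k i false + m.b (c i) false := by exact_mod_cast e1 false
      rcases q with _ | ⟨_ | _, _ | _, j⟩ <;>
        simp only [del, gblk, List.mem_cons, List.not_mem_nil, or_false, Prod.mk.injEq] at hd
      · rcases hd with ⟨rfl, rfl, rfl⟩ | ⟨rfl, rfl, rfl⟩ | ⟨rfl, rfl, rfl⟩ | ⟨rfl, rfl, rfl⟩ |
          ⟨rfl, rfl, rfl⟩ <;> simp only [VA, GV, VF, grem, cond_true, cond_false] <;> push_cast <;>
          linarith
      · obtain ⟨rfl, rfl, rfl⟩ := hd
        simp only [VA, GV, VF, grem]
        cases j <;> simp only [cond_true, cond_false] <;> push_cast <;> linarith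
      · obtain ⟨rfl, rfl, rfl⟩ := hd
        simp only [VA, GV, VF, grem]
        cases j <;> simp only [cond_true, cond_false] <;> push_cast <;> linarith
    | false =>
      obtain ⟨h2, _⟩ := h1.2 rfl
      simp only at h2
      obtain ⟨y1, y2⟩ := y
      simp only at h2
      by_cases hy : 0 < y1
      · obtain ⟨z, rfl⟩ : ∃ z, y1 = z + 1 := ⟨y1 - 1, by omega⟩
        rcases q with _ | ⟨_ | _, _ | _, j⟩ <;>
          simp only [del, gblk, hy, if_true, List.mem_cons, List.not_mem_nil, or_false,
            Prod.mk.injEq] at hd <;> obtain ⟨rfl, rfl, rfl⟩ := hd <;> try cases j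
        all_goals
          simp only [VA, GV, grem, hy, if_true, cond_true, cond_false, Nat.add_sub_cancel,
            if_false, Bool.true_eq_false]
          try push_cast
          try linarith
      · have hy2 : 0 < y2 := by omega
        obtain ⟨z, rfl⟩ : ∃ z, y2 = z + 1 := ⟨y2 - 1, by omega⟩
        rcases q with _ | ⟨_ | _, _ | _, j⟩ <;>
          simp only [del, gblk, hy, if_false, List.mem_cons, List.not_mem_nil, or_false,
            Prod.mk.injEq] at hd <;> obtain ⟨rfl, rfl, rfl⟩ := hd <;> try cases j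
        all_goals
          simp only [VA, GV, grem, hy, if_true, cond_true, cond_false, Nat.add_sub_cancel,
            if_false, Bool.false_eq_true]
          try push_cast
          try linarith
  · intro n q he
    change ex (gblk c (gen k n)) q at he
    change 0 ≤ m.GV c k (gen k n) q
    generalize gen k n = s at he
    obtain ⟨i, f, y⟩ := s
    cases f with
    | true =>
      rcases q with _ | ⟨_ | _, _ | _, j⟩ <;> simp [ex, gblk, GV, VF] at he ⊢
    | false =>
      rcases q with _ | ⟨_ | _, _ | _, j⟩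
      · simp [ex] at he
      · simp [ex] at he
      · exfalso
        simp only [gblk] at he
        split_ifs at he <;> exact he
      · simp [ex] at he
      · simp only [GV, VA]
        positivity
  · simp [gen, GV, VF, blk]


theorem hG1 : 1 ≤ m.blk.G := by
  have h1 := m.hB
  have h2 := m.hBG
  change 1 ≤ m.G
  omega

/-- the drained block automaton of the machine -/
noncomputable def dr : Blk (K × Option Bool) (Option St) := m.blk.drain m.hG1

/-- first half: no run gives a finite solution -/
theorem solutionB {α : Type} (lt : (K × Option Bool) × ℕ → ℕ → α) (eta : α)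
    (inj : ∀ c i d j, lt c i = lt d j → c = d ∧ i = j) (ne : ∀ c i, lt c i ≠ eta)
    (h : ¬ m.Run) : ∃ n0, {w | ∃ x, (m.dr.frm lt eta inj ne).X2 x ∧
        ∃ z, Fac (m.dr.frm lt eta inj ne).Y2 n0 z ∧ w = x ++ z} =
      {w | ∃ z, Fac (m.dr.frm lt eta inj ne).Y2 n0 z ∧
        ∃ y, (m.dr.frm lt eta inj ne).Y2 y ∧ w = z ++ y} := by
  apply Frm.solutionB
  rintro ⟨s, h0, h1, h2⟩
  apply h
  obtain ⟨Xs, hX0, hX1, hX2⟩ := m.blk.exists_blocks s h0 h1
  refine m.run_of_bad Xs hX1 ?_ hX0
  intro b q w hp he
  exact m.blk.drain_neg lt eta inj ne m.hG1 Xs s h0 hX2 h2 b q w hp he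

/-- second half: a run excludes every nonempty solution -/
theorem no_solutionB {α : Type} (lt : (K × Option Bool) × ℕ → ℕ → α) (eta : α)
    (inj : ∀ c i d j, lt c i = lt d j → c = d ∧ i = j) (ne : ∀ c i, lt c i ≠ eta)
    (h : m.Run) (Z : Set (List α)) (hne : Z.Nonempty)
    (hZ : ∀ x, (m.dr.frm lt eta inj ne).X2 x → ∀ z ∈ Z,
      ∃ z' ∈ Z, ∃ y, (m.dr.frm lt eta inj ne).Y2 y ∧ x ++ z = z' ++ y) : False := by
  obtain ⟨Xs, h1, h2, V, h3, h4, h5⟩ := m.potential_of_run h
  exact Frm.no_solutionB (m.dr.frm lt eta inj ne) (m.blk.cellseq Xs)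
    (m.blk.cellseq_legal Xs h2)
    (m.blk.drain_bad lt eta inj ne m.hG1 Xs h1 h2 V h3 h4 h5) Z hne hZ

end Mach

end Pool.Agent.Helper948.Conj
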