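import Pool.Agent.H390R3.Cj.FrameB

set_option autoImplicit false

/-! Second half of the second frame: an infinite bad sequence excludes every nonempty solution. -/

namespace Pool.Agent.Helper948.Conj

namespace Frm

variable {α C : Type} (F : Frm α C)

theorem Cr_ne (y : List α) (h : F.Cr y) : y ≠ [] := by
  cases h with
  | eta => simp
  | tok d _ => rw [T_cons]; simp
  | base _ hy =>
    obtain ⟨_, _, _, _, _, h⟩ := F.hb y hy
    rw [h]; simp
  | w0 => simp
  | w1 => simp
  | w2 c b => rw [p_cons]; simp

theorem Y2_ne (y : List α) (h : F.Y2 y) : y ≠ [] := by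
  cases h with
  | core _ h => exact F.Cr_ne y h
  | h b s => rw [p_cons]; simp

/-- words starting with the fresh letter -/
theorem Y2_eta (l : List α) (h : F.Y2 (F.eta :: l)) : l = [] ∨
    (∃ b, l = F.p F.star ++ F.p b) ∨
    ∃ c, c ∈ F.cells ∧ F.R F.star c ∧ l = F.p F.star ++ seg F.lt c 0 F.o := by
  generalize hw : F.eta :: l = w at h
  cases h with
  | core _ h =>
    cases h with
    | eta => left; simpa using hw
    | tok d _ =>
      rw [T_cons] at hw
      exact absurd (List.cons.inj hw).1.symm (F.ne _ _)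
    | base _ hy =>
      obtain ⟨_, _, _, _, _, h⟩ := F.hb _ hy
      rw [h] at hw
      exact absurd (List.cons.inj hw).1.symm (F.ne _ _)
    | w0 b _ => right; left; exact ⟨b, (List.cons.inj hw).2⟩
    | w1 c hc hR => right; right; exact ⟨c, hc, hR, (List.cons.inj hw).2⟩
    | w2 c b =>
      rw [p_cons, List.cons_append] at hw
      exact absurd (List.cons.inj hw).1.symm (F.ne _ _)
  | h b s =>
    rw [p_cons, List.cons_append] at hw
    exact absurd (List.cons.inj hw).1.symm (F.ne _ _)

theorem Y2_tok (d : C) (l : List α) (h : F.Y2 (F.lt d 0 :: l)) : F.lt d 0 :: l = F.T d := by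
  have hoL := F.hoL
  have ho := F.ho
  generalize hw : F.lt d 0 :: l = w at h
  cases h with
  | core _ h =>
    cases h with
    | eta => exact absurd (List.cons.inj hw).1 (F.ne _ _)
    | tok e _ =>
      rw [T_cons] at hw
      have := (F.inj _ _ _ _ (List.cons.inj hw).1).1
      rw [this, T_cons]
    | base _ hy =>
      obtain ⟨_, _, _, h1, _, h⟩ := F.hb _ hy
      rw [h] at hw
      have := (F.inj _ _ _ _ (List.cons.inj hw).1).2
      omega
    | w0 b _ => exact absurd (List.cons.inj hw).1 (F.ne _ _)
    | w1 c hc hR => exact absurd (List.cons.inj hw).1 (F.ne _ _)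
    | w2 c b =>
      rw [p_cons, List.cons_append] at hw
      have := (F.inj _ _ _ _ (List.cons.inj hw).1).2
      omega
  | h b s =>
    rw [p_cons, List.cons_append] at hw
    have := (F.inj _ _ _ _ (List.cons.inj hw).1).2
    omega

theorem facB_eta {n : ℕ} {w : List α} (hw0 : ∀ l, w ≠ F.lt F.star F.o :: l)
    (h : Fac F.Y2 n (F.eta :: w)) :
    ∃ n', n = n' + 1 ∧ Fac F.Y2 n' w := by
  generalize hv : F.eta :: w = v at h
  cases h with
  | nil => simp at hv
  | @cons y w' n hy h =>
    cases y with
    | nil => exact absurd rfl (F.Y2_ne _ hy)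
    | cons a y =>
      rw [List.cons_append] at hv
      obtain ⟨h1, h2⟩ := List.cons.inj hv
      subst h1
      rcases F.Y2_eta _ hy with rfl | ⟨b, rfl⟩ | ⟨c, _, _, rfl⟩
      · subst h2
        exact ⟨n, rfl, h⟩
      · exfalso
        rw [p_cons] at h2
        exact hw0 _ h2
      · exfalso
        rw [p_cons] at h2
        exact hw0 _ h2

theorem facB_tok {n : ℕ} {d : C} {w : List α} (h : Fac F.Y2 n (F.T d ++ w)) :
    ∃ n', n = n' + 1 ∧ Fac F.Y2 n' w := by
  generalize hv : F.T d ++ w = v at h
  cases h with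
  | nil => rw [T_cons] at hv; simp at hv
  | @cons y w' n hy h =>
    cases y with
    | nil => exact absurd rfl (F.Y2_ne _ hy)
    | cons a y =>
      have hv' := hv
      rw [T_cons, List.cons_append, List.cons_append] at hv'
      obtain ⟨h1, h2⟩ := List.cons.inj hv'
      subst h1
      rw [F.Y2_tok _ _ hy] at hv
      have := List.append_cancel_left hv
      subst this
      exact ⟨n, rfl, h⟩

theorem facB_eta_pow {w : List α} (hw0 : ∀ l, w ≠ F.lt F.star F.o :: l) (k : ℕ) :
    ∀ {n : ℕ}, Fac F.Y2 n (List.replicate k F.eta ++ w) →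
    ∃ n', n = n' + k ∧ Fac F.Y2 n' w := by
  induction k with
  | zero => intro n h; exact ⟨n, rfl, by simpa using h⟩
  | succ k ih =>
    intro n h
    rw [List.replicate_succ, List.cons_append] at h
    obtain ⟨n1, rfl, h1⟩ := F.facB_eta (by
      intro l hl
      cases k with
      | zero => exact hw0 l (by simpa using hl)
      | succ k =>
        rw [List.replicate_succ, List.cons_append] at hl
        exact F.ne _ _ (List.cons.inj hl).1.symm) h
    obtain ⟨n2, rfl, h2⟩ := ih h1
    exact ⟨n2, by omega, h2⟩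

theorem facB_Tl {w : List α} (l : List C) : ∀ {n : ℕ}, Fac F.Y2 n (F.Tl l ++ w) →
    ∃ n', n = n' + l.length ∧ Fac F.Y2 n' w := by
  induction l with
  | nil => intro n h; exact ⟨n, rfl, by simpa [Tl] using h⟩
  | cons d l ih =>
    intro n h
    have e : F.Tl (d :: l) ++ w = F.T d ++ (F.Tl l ++ w) := by simp [Tl]
    rw [e] at h
    obtain ⟨n1, rfl, h1⟩ := F.facB_tok h
    obtain ⟨n2, rfl, h2⟩ := ih h1
    exact ⟨n2, by simp; omega, h2⟩

theorem facB_init {a : ℕ} {z : List α} (h : Fac F.Y2 a z) : ∀ (l : List C), z <+: F.Tl l →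
    z = F.Tl (l.take a) ∧ a ≤ l.length := by
  induction h with
  | nil => intro l _; simp [Tl]
  | @cons y w n hy h ih =>
    intro l hl
    obtain ⟨r, hr⟩ := hl
    cases y with
    | nil => exact absurd rfl (F.Y2_ne _ hy)
    | cons a y =>
      cases l with
      | nil => simp [Tl] at hr
      | cons d l =>
        have e : F.Tl (d :: l) = F.T d ++ F.Tl l := by simp [Tl]
        rw [e] at hr
        have hr' := hr
        rw [T_cons, List.cons_append, List.cons_append, List.cons_append] at hr'
        obtain ⟨h1, h2⟩ := List.cons.inj hr'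
        subst h1
        rw [F.Y2_tok _ _ hy, List.append_assoc] at hr
        have := List.append_cancel_left hr
        obtain ⟨h3, h4⟩ := ih l ⟨r, this⟩
        rw [F.Y2_tok _ _ hy]
        refine ⟨?_, by simp; omega⟩
        rw [List.take_succ_cons]
        have e : F.Tl (d :: l.take n) = F.T d ++ F.Tl (l.take n) := by simp [Tl]
        rw [e, ← h3]

theorem pushB {Z : Set (List α)}
    (hZ : ∀ x, F.X2 x → ∀ z ∈ Z, ∃ z' ∈ Z, ∃ y, F.Y2 y ∧ x ++ z = z' ++ y) {n : ℕ} {w : List α}
    (h : Fac F.X2 n w) {z : List α} (hz : z ∈ Z) :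
    ∃ z' ∈ Z, ∃ u, Fac F.Y2 n u ∧ w ++ z = z' ++ u := by
  induction h with
  | nil => exact ⟨z, hz, [], Fac.nil, by simp⟩
  | @cons x w n hx _ ih =>
    obtain ⟨z1, h1, u, h2, h3⟩ := ih
    obtain ⟨z2, h4, y, h5, h6⟩ := hZ x hx z1 h1
    refine ⟨z2, h4, y ++ u, Fac.cons h5 h2, ?_⟩
    rw [List.append_assoc, h3, ← List.append_assoc, h6, List.append_assoc]

/-- pushing powers of the fresh letter -/
theorem pushB_eta {Z : Set (List α)}
    (hZ : ∀ x, F.X2 x → ∀ z ∈ Z, ∃ z' ∈ Z, ∃ y, F.Y2 y ∧ x ++ z = z' ++ y) {n : ℕ} {w : List α}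
    (h : Fac F.X2 n w) {z : List α} (hz : z ∈ Z)
    (hw0 : ∀ l, w ++ z ≠ F.lt F.star F.o :: l) :
    ∃ a, List.replicate a F.eta ∈ Z ∧ Fac F.Y2 (a + n) (w ++ z) := by
  have hX : ∀ k, Fac F.X2 k (List.replicate k F.eta) := by
    intro k
    induction k with
    | zero => exact Fac.nil
    | succ k ih =>
      rw [List.replicate_succ]
      exact Fac.cons (y := [F.eta]) (Or.inl (Y2.core _ Cr.eta)) ih
  have h1 := (hX (w ++ z).length).append h
  obtain ⟨z', hz', u, hu, he⟩ := F.pushB hZ h1 hz
  have hlen := Fac.length_le F.Y2_ne hu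
  have hl2 := congrArg List.length he
  simp only [List.length_append, List.length_replicate] at hl2 hlen
  have hpre : z' <+: List.replicate (w ++ z).length F.eta := by
    have e1 : z' <+: List.replicate (w ++ z).length F.eta ++ (w ++ z) := by
      rw [← List.append_assoc, he]; exact List.prefix_append _ _
    refine List.prefix_of_prefix_length_le e1 (List.prefix_append _ _) ?_
    rw [List.length_replicate, List.length_append]
    omega
  obtain ⟨r, hr⟩ := hpre
  have h3 := hr
  rw [List.append_eq_replicate_iff] at h3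
  obtain ⟨h3, h4, h5⟩ := h3
  refine ⟨z'.length, ?_, ?_⟩
  · rw [← h4]; exact hz'
  · have e2 : u = List.replicate r.length F.eta ++ (w ++ z) := by
      rw [List.append_assoc, ← hr, List.append_assoc] at he
      have := List.append_cancel_left he
      rw [← h5]
      exact this.symm
    rw [e2] at hu
    obtain ⟨n', hn1, hn2⟩ := F.facB_eta_pow hw0 _ hu
    have : n' = z'.length + n := by omega
    rw [← this]
    exact hn2

/-- second half: an infinite bad sequence excludes every nonempty solution -/
theorem no_solutionB (s : ℕ → C) (hc : ∀ i, F.R (s i) (s (i + 1)))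
    (hbad : ∀ m, ¬ F.GoodI ((List.range m).map fun i => s (i + 1)))
    (Z : Set (List α)) (hne : Z.Nonempty)
    (hZ : ∀ x, F.X2 x → ∀ z ∈ Z, ∃ z' ∈ Z, ∃ y, F.Y2 y ∧ x ++ z = z' ++ y) : False := by
  classical
  obtain ⟨z0, hz0, hmin⟩ : ∃ z0 ∈ Z, ∀ z ∈ Z, z0.length ≤ z.length := by
    have hex : ∃ n, ∃ z ∈ Z, z.length = n := by
      obtain ⟨z, hz⟩ := hne
      exact ⟨z.length, z, hz, rfl⟩
    obtain ⟨z0, h1, h2⟩ := Nat.find_spec hex
    exact ⟨z0, h1, fun z hz => by
      rw [h2]; exact Nat.find_min' hex ⟨z, hz, rfl⟩⟩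
  have ho := F.ho
  have hnTl : ∀ (l : List C) (v : List α), F.Tl l ≠ F.lt F.star F.o :: v := by
    intro l v h
    cases l with
    | nil => simp [Tl] at h
    | cons d l =>
      rw [Tl_cons, T_cons, List.cons_append] at h
      have := (F.inj _ _ _ _ (List.cons.inj h).1).2
      omega
  set N := z0.length + 1 with hN
  set ls : List C := (List.range N).map fun i => s (i + 1) with hls
  have hlsl : ls.length = N := by simp [hls]
  have hTX : Fac F.X2 N (F.Tl ls) := by
    have : Fac F.X2 (ls.map F.T).length (ls.map F.T).flatten := by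
      apply Fac.flatten
      intro y hy
      rw [List.mem_map] at hy
      obtain ⟨c, hc1, rfl⟩ := hy
      rw [hls, List.mem_map] at hc1
      obtain ⟨i, _, rfl⟩ := hc1
      exact Or.inl (Y2.core _ (Cr.tok _ (F.hR _ _ (hc i))))
    rw [List.length_map, hlsl] at this
    exact this
  have h1 := hTX.append (Fac.one (Y := F.X2) (y := [F.eta]) (Or.inl (Y2.core _ Cr.eta)))
  obtain ⟨z1, hz1, u, hu, he⟩ := F.pushB hZ h1 hz0
  have hlen := Fac.length_le F.Y2_ne hu
  have hl2 := congrArg List.length he
  simp only [List.length_append, List.length_singleton] at hl2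
  have hpre : z1 <+: F.Tl ls := by
    have e1 : z1 <+: F.Tl ls ++ ([F.eta] ++ z0) := by
      rw [← List.append_assoc, he]; exact List.prefix_append _ _
    exact List.prefix_of_prefix_length_le e1 (List.prefix_append _ _) (by omega)
  obtain ⟨m, ha1, hf⟩ := F.pushB_eta hZ Fac.nil hz1 (by
    intro l hl
    rw [List.nil_append] at hl
    obtain ⟨r, hr⟩ := hpre
    rw [hl, List.cons_append] at hr
    exact hnTl ls _ hr.symm)
  rw [List.nil_append, add_zero] at hf
  obtain ⟨h2, h3⟩ := F.facB_init hf ls hpre
  have ha2 := hmin _ ha1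
  rw [List.length_replicate] at ha2
  have ha3 : m ≤ z0.length := by
    have e2 : F.Tl ls = F.Tl (ls.take m) ++ F.Tl (ls.drop m) := by
      unfold Tl
      rw [← List.flatten_append, ← List.map_append, List.take_append_drop]
    rw [e2, List.append_assoc, List.append_assoc, h2] at he
    have h4 := List.append_cancel_left he
    rw [← h4] at hu
    obtain ⟨n1, hn1, h5⟩ := F.facB_Tl _ hu
    have h7 := Fac.length_le F.Y2_ne h5
    simp only [List.length_append, List.length_singleton] at h7
    rw [List.length_drop, hlsl] at hn1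
    rw [hlsl] at h3
    omega
  obtain ⟨b, hb1, hf'⟩ := F.pushB_eta hZ
    (Fac.one (Y := F.X2) (y := F.eta :: F.p F.star) (Or.inr rfl)) hz1 (by
      intro l hl
      rw [List.cons_append] at hl
      exact F.ne _ _ (List.cons.inj hl).1.symm)
  have hb2 := hmin _ hb1
  rw [List.length_replicate] at hb2
  have e3 : (List.range m).map (fun i => s (i + 1)) = ls.take m := by
    rw [hlsl] at h3
    rw [hls, ← List.map_take, List.take_range, min_eq_left h3]
  -- the first word of the factorization
  have hml : ((List.range m).map (fun i => s (i + 1))).length = m := by simp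
  generalize hv : F.eta :: F.p F.star ++ z1 = v at hf'
  cases hf' with
  | @cons y w' n hy h =>
    cases y with
    | nil => exact absurd rfl (F.Y2_ne _ hy)
    | cons a y =>
      rw [List.cons_append, List.cons_append] at hv
      obtain ⟨e1, e4⟩ := List.cons.inj hv
      subst e1
      rcases F.Y2_eta _ hy with rfl | ⟨b', rfl⟩ | ⟨c, hcc, hR, rfl⟩
      · refine hbad m ⟨b, by rw [hml]; omega, ?_⟩
        rw [e3, ← h2, e4]
        exact h
      · rw [List.append_assoc] at e4
        have e5 := List.append_cancel_left e4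
        rw [h2, p_cons, List.cons_append] at e5
        cases hlt : ls.take m with
        | nil => rw [hlt] at e5; simp [Tl] at e5
        | cons d l' =>
          rw [hlt, Tl_cons, T_cons, List.cons_append] at e5
          have := (F.inj _ _ _ _ (List.cons.inj e5).1).2
          omega
      · rw [List.append_assoc] at e4
        have e5 := List.append_cancel_left e4
        refine hbad m ⟨b + 1, by rw [hml]; omega, ?_⟩
        rw [e3, ← h2, e5, ← List.append_assoc]
        exact Fac.cons (Y2.core _ (Cr.base _ (F.hm _ c F.hstar hR))) h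

end Frm

end Pool.Agent.Helper948.Conj
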