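import Pool.Agent.H390R3.Cj.PotB
import Pool.Agent.Helper948.Conj.MachRun

set_option autoImplicit false

/-! Block paths give factorizations into words of the second frame; the drain state. -/

namespace Pool.Agent.Helper948.Conj

namespace Blk

variable {K S : Type} (M : Blk K S)

variable {α : Type} (lt : K × ℕ → ℕ → α) (eta : α)
  (inj : ∀ c i d j, lt c i = lt d j → c = d ∧ i = j) (ne : ∀ c i, lt c i ≠ eta)

theorem step_facB (Xs : ℕ → K) (s : ℕ → K × ℕ)
    (hs : ∀ b x, x < M.W → s (b * M.W + x) = (Xs b, x)) (b : ℕ) (q : S) (g l : ℕ) (q' : S)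
    (h : (g, l, q') ∈ M.del (Xs b) q) :
    Fac (M.frm lt eta inj ne).Y2 (M.W + g - l)
      ((M.frm lt eta inj ne).txt s (b * M.W * M.L + M.tq q) (M.W * M.L + M.tq q' - M.tq q)) := by
  set F := M.frm lt eta inj ne with hF
  have hbase : ∀ y, M.Base lt y → F.Y2 y := fun y hy => Frm.Y2.core _ (Frm.Cr.base y hy)
  obtain ⟨hg, hl⟩ := M.hG _ _ _ _ _ h
  have hL1 := M.tq_lt q g hg
  have hL2 := M.tq_lt q' 0 (Nat.zero_le _)
  have hW : M.W = M.G + 2 := rfl
  have hL0 : 0 < M.L := by omega
  have hsb : s (b * M.W) = (Xs b, 0) := by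
    have := hs b 0 M.Wpos
    rwa [add_zero] at this
  have hdm : ∀ i t, t < M.L → (i * M.L + t) / M.L = i ∧ (i * M.L + t) % M.L = t := by
    intro i t ht
    constructor
    · rw [show i * M.L + t = t + M.L * i by ring, Nat.add_mul_div_left _ _ hL0,
        Nat.div_eq_of_lt ht, zero_add]
    · rw [show i * M.L + t = t + M.L * i by ring, Nat.add_mul_mod_self_left,
        Nat.mod_eq_of_lt ht]
  -- inside tokens
  have f1 : ∀ g', g' ≤ g → Fac F.Y2 g' (F.txt s (b * M.W * M.L + M.tq q) g') := by
    intro g'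
    induction g' with
    | zero => intro _; exact Fac.nil
    | succ g' ih =>
      intro hg'
      rw [F.txt_add]
      refine (ih (by omega)).append (Fac.one ?_)
      have e : F.txt s (b * M.W * M.L + M.tq q + g') 1 = [lt (Xs b, 0) (M.tq q + g')] := by
        rw [F.txt_succ s _ 0]
        change [lt (s (_ / M.L)) (_ % M.L)] = _
        rw [add_assoc, (hdm _ _ (by omega)).1, (hdm _ _ (by omega)).2, hsb]
      rw [e]
      exact hbase _ (Base.inside (Xs b) q g l q' g' h (by omega))
  -- jump token
  have f2 : Fac F.Y2 1 (F.txt s (b * M.W * M.L + M.tq q + g)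
      ((l + 1) * M.L + M.tq q' - (M.tq q + g))) := by
    have e : F.txt s (b * M.W * M.L + M.tq q + g)
        ((l + 1) * M.L + M.tq q' - (M.tq q + g)) =
        wt lt M.L (fun x => (Xs b, x)) (M.tq q + g)
          ((l + 1) * M.L + M.tq q' - (M.tq q + g)) := by
      unfold Frm.txt wt
      apply List.ext_getElem
      · simp
      · intro n h1 h2
        simp only [List.length_map, List.length_range'] at h1
        simp only [List.getElem_map, List.getElem_range', one_mul]
        change lt (s (_ / M.L)) (_ % M.L) = _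
        have e1 : b * M.W * M.L + M.tq q + g + n =
            (b * M.W + (M.tq q + g + n) / M.L) * M.L + (M.tq q + g + n) % M.L := by
          have := Nat.div_add_mod (M.tq q + g + n) M.L
          have e2 : (b * M.W + (M.tq q + g + n) / M.L) * M.L =
              b * M.W * M.L + M.L * ((M.tq q + g + n) / M.L) := by ring
          omega
        rw [e1, (hdm _ _ (Nat.mod_lt _ hL0)).1, (hdm _ _ (Nat.mod_lt _ hL0)).2]
        have h3 : (M.tq q + g + n) / M.L < M.W := by
          rw [Nat.div_lt_iff_lt_mul hL0]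
          have h4 : (l + 2) * M.L ≤ M.W * M.L := Nat.mul_le_mul_right _ (by omega)
          have e3 : (l + 2) * M.L = (l + 1) * M.L + M.L := by ring
          omega
        rw [hs b _ h3]
    rw [e]
    exact Fac.one (hbase _ (Base.jump (Xs b) q g l q' h))
  -- cruise tokens
  have f3 : ∀ k x, 1 ≤ x → x + k ≤ M.W →
      Fac F.Y2 k (F.txt s ((b * M.W + x) * M.L + M.tq q') (k * M.L)) := by
    intro k
    induction k with
    | zero => intro x _ _; rw [zero_mul]; exact Fac.nil
    | succ k ih =>
      intro x hx hk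
      rw [show (k + 1) * M.L = M.L + k * M.L by ring, F.txt_add, add_comm k]
      refine (Fac.one ?_).append ?_
      · have e := wt_two lt M.L s (b * M.W + x) (M.tq q') (M.tq q') (by omega) (by omega)
        rw [show M.L + M.tq q' - M.tq q' = M.L by omega] at e
        have e2 : F.txt s ((b * M.W + x) * M.L + M.tq q') M.L =
          wt lt M.L s ((b * M.W + x) * M.L + M.tq q') M.L := rfl
        rw [e2, e, hs b x (by omega)]
        refine hbase _ (Base.cruise (Xs b) x _ q' hx (by omega) ?_)
        rw [M.mem_cells]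
        by_cases hx1 : x + 1 < M.W
        · rw [add_assoc, hs b _ hx1]; exact hx1
        · have e3 : b * M.W + x + 1 = (b + 1) * M.W + 0 := by
            rw [add_mul, one_mul]; omega
          rw [e3, hs (b + 1) 0 M.Wpos]
          exact M.Wpos
      · have := ih (x + 1) (by omega) (by omega)
        have e3 : (b * M.W + x) * M.L + M.tq q' + M.L = (b * M.W + (x + 1)) * M.L + M.tq q' := by
          ring
        rw [e3]
        exact this
  have hll : M.L ≤ (l + 1) * M.L := by rw [add_mul]; omega
  have e1 : M.W * M.L + M.tq q' - M.tq q = g + ((l + 1) * M.L + M.tq q' - (M.tq q + g)) +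
      (M.W - (l + 1)) * M.L := by
    have h4 : (l + 1) * M.L ≤ M.W * M.L := Nat.mul_le_mul_right _ (by omega)
    rw [Nat.sub_mul]
    omega
  have e2 : M.W + g - l = g + 1 + (M.W - (l + 1)) := by omega
  rw [e1, e2, F.txt_add, F.txt_add]
  refine ((f1 g le_rfl).append f2).append ?_
  have e4 : b * M.W * M.L + M.tq q + (g + ((l + 1) * M.L + M.tq q' - (M.tq q + g))) =
      (b * M.W + (l + 1)) * M.L + M.tq q' := by
    rw [add_mul (b * M.W) (l + 1)]
    omega
  rw [e4]
  exact f3 _ (l + 1) (by omega) (by omega)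

theorem path_facB (Xs : ℕ → K) (s : ℕ → K × ℕ)
    (hs : ∀ b x, x < M.W → s (b * M.W + x) = (Xs b, x)) (b : ℕ) (q : S) (w : ℤ)
    (h : M.Path Xs b q w) : M.tq M.m1 ≤ b * M.W * M.L + M.tq q ∧
    ∃ n : ℕ, (n : ℤ) = b * M.W + w ∧ Fac (M.frm lt eta inj ne).Y2 n
      ((M.frm lt eta inj ne).txt s (M.tq M.m1) (b * M.W * M.L + M.tq q - M.tq M.m1)) := by
  induction h with
  | start =>
    refine ⟨by simp, 0, by simp, ?_⟩
    rw [zero_mul, zero_mul, zero_add, Nat.sub_self]
    exact Fac.nil
  | step b q w g l q' h1 h2 ih =>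
    obtain ⟨ih1, n, hn, ih2⟩ := ih
    obtain ⟨hg, hl⟩ := M.hG _ _ _ _ _ h2
    have hW : M.W = M.G + 2 := rfl
    have hL1 := M.tq_lt q 0 (Nat.zero_le _)
    have hL3 : M.L ≤ M.W * M.L := Nat.le_mul_of_pos_left _ M.Wpos
    have e0 : (b + 1) * M.W * M.L = b * M.W * M.L + M.W * M.L := by ring
    refine ⟨by rw [e0]; omega, n + (M.W + g - l), ?_, ?_⟩
    · rw [Nat.cast_add, Nat.cast_sub (by omega)]
      push_cast
      linarith
    · have := M.step_facB lt eta inj ne Xs s hs b q g l q' h2
      have e1 : (b + 1) * M.W * M.L + M.tq q' - M.tq M.m1 =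
          (b * M.W * M.L + M.tq q - M.tq M.m1) + (M.W * M.L + M.tq q' - M.tq q) := by
        rw [e0]; omega
      rw [e1, Frm.txt_add]
      refine ih2.append ?_
      rw [show M.tq M.m1 + (b * M.W * M.L + M.tq q - M.tq M.m1) = b * M.W * M.L + M.tq q by omega]
      exact this

/-- on an exactly bad sequence no path reaching an exit has weight zero -/
theorem path_ne (Xs : ℕ → K) (s : ℕ → K × ℕ) (h0 : s 0 = (M.ini, 0))
    (hs : ∀ b x, x < M.W → s (b * M.W + x) = (Xs b, x))
    (hbad : ∀ m, ¬ (M.frm lt eta inj ne).GoodE ((List.range m).map fun i => s (i + 1)))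
    (b : ℕ) (q : S) (h : M.Path Xs b q 0) (he : M.ex (Xs b) q) : False := by
  set F := M.frm lt eta inj ne with hF
  obtain ⟨h1, n, hn, h2⟩ := M.path_facB lt eta inj ne Xs s hs b q 0 h
  have hW : M.W = M.G + 2 := rfl
  have hL1 := M.tq_lt q 0 (Nat.zero_le _)
  have hL0 : 0 < M.L := by omega
  refine hbad (b * M.W + 1) ?_
  unfold Frm.GoodE
  have hn2 : ((List.range (b * M.W + 1)).map fun i => s (i + 1)).length = n + 1 := by
    simp only [List.length_map, List.length_range]
    zify
    omega
  rw [hn2]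
  rw [F.txt_good s h0]
  change Fac F.Y2 (n + 1) (F.txt s (M.tq M.m1) ((b * M.W + 1 + 1) * M.L - M.tq M.m1))
  have e1 : (b * M.W + 1 + 1) * M.L - M.tq M.m1 =
      (b * M.W * M.L + M.tq q - M.tq M.m1) + (2 * M.L - M.tq q) := by
    have : (b * M.W + 1 + 1) * M.L = b * M.W * M.L + 2 * M.L := by ring
    omega
  rw [e1, F.txt_add]
  refine h2.append (Fac.one ?_)
  rw [show M.tq M.m1 + (b * M.W * M.L + M.tq q - M.tq M.m1) = b * M.W * M.L + M.tq q by omega]
  have e2 : F.txt s (b * M.W * M.L + M.tq q) (2 * M.L - M.tq q) =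
      wt lt M.L (fun x => (Xs b, x)) (M.tq q) (2 * M.L - M.tq q) := by
    have e3 := wt_two lt M.L s (b * M.W) (M.tq q) M.L (by omega) le_rfl
    have e4 := wt_two lt M.L (fun x => (Xs b, x)) 0 (M.tq q) M.L (by omega) le_rfl
    rw [show M.L + M.L - M.tq q = 2 * M.L - M.tq q by omega] at e3 e4
    rw [zero_mul, zero_add] at e4
    rw [e4]
    have e5 : F.txt s (b * M.W * M.L + M.tq q) (2 * M.L - M.tq q) =
      wt lt M.L s (b * M.W * M.L + M.tq q) (2 * M.L - M.tq q) := rfl
    rw [e5, e3]
    have e6 := hs b 0 M.Wpos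
    rw [add_zero] at e6
    rw [e6, hs b 1 (by omega)]
  rw [e2]
  exact Frm.Y2.core _ (Frm.Cr.base _ (Base.exit (Xs b) q he))

/-! ### The drain state -/

open Classical in
/-- the automaton with a drain state in which the weight can be lowered at will -/
noncomputable def drain (hG1 : 1 ≤ M.G) : Blk K (Option S) where
  G := M.G
  all := M.all
  hall := M.hall
  idx q := match q with
    | none => M.nS
    | some q => M.idx q
  hidx := by
    rintro (_ | q) (_ | q') h
    · rfl
    · have := M.hnS q'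
      simp only at h
      omega
    · have := M.hnS q
      simp only at h
      omega
    · rw [M.hidx q q' h]
  nS := M.nS + 1
  hnS := by
    rintro (_ | q)
    · simp
    · have := M.hnS q
      simp only
      omega
  rho := M.rho
  del X q := match q with
    | none => [(0, 0, none), (0, 1, none)]
    | some q => (M.del X q).map (fun t => (t.1, t.2.1, some t.2.2)) ++
        (if M.ex X q then [(0, 0, none)] else [])
  hG := by
    rintro X (_ | q) g l q' h
    · simp only [List.mem_cons, List.not_mem_nil, or_false, Prod.mk.injEq] at h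
      rcases h with ⟨rfl, rfl, _⟩ | ⟨rfl, rfl, _⟩ <;> omega
    · simp only [List.mem_append, List.mem_map, Prod.mk.injEq] at h
      rcases h with ⟨⟨g1, l1, q1⟩, h1, rfl, rfl, _⟩ | h
      · exact M.hG X q g1 l1 q1 h1
      · split_ifs at h
        · simp only [List.mem_cons, List.not_mem_nil, or_false, Prod.mk.injEq] at h
          obtain ⟨rfl, rfl, _⟩ := h
          omega
        · simp at h
  ex _ q := q = none
  m1 := some M.m1
  hm1 X := by
    simp only [List.mem_append, List.mem_map]
    left
    exact ⟨(0, 0, M.m1), M.hm1 X, rfl⟩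
  ini := M.ini

theorem drain_path (hG1 : 1 ≤ M.G) (Xs : ℕ → K) (b : ℕ) (q : S) (w : ℤ) (h : M.Path Xs b q w) :
    (M.drain hG1).Path Xs b (some q) w := by
  induction h with
  | start => exact Path.start
  | step b q w g l q' _ h2 ih =>
    refine Path.step b (some q) w g l (some q') ih ?_
    change _ ∈ (M.del (Xs b) q).map _ ++ _
    rw [List.mem_append, List.mem_map]
    left
    exact ⟨(g, l, q'), h2, rfl⟩

theorem drain_lower (hG1 : 1 ≤ M.G) (Xs : ℕ → K) (b : ℕ) (w : ℤ)
    (h : (M.drain hG1).Path Xs b none w) (k : ℕ) :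
    (M.drain hG1).Path Xs (b + k) none (w - k) := by
  induction k with
  | zero => simpa using h
  | succ k ih =>
    have h1 := Path.step (M := M.drain hG1) (b + k) none (w - k) 0 1 none ih (by
      change _ ∈ [((0 : ℕ), (0 : ℕ), (none : Option S)), (0, 1, none)]
      simp)
    have e : w - (k : ℤ) + (0 : ℕ) - (1 : ℕ) = w - ((k + 1 : ℕ) : ℤ) := by push_cast; ring
    rw [e] at h1
    exact h1

/-- on an exactly bad sequence for the drained automaton all paths of the original one reaching
an exit have negative weight -/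
theorem drain_neg (hG1 : 1 ≤ M.G) (Xs : ℕ → K) (s : ℕ → K × ℕ) (h0 : s 0 = (M.ini, 0))
    (hs : ∀ b x, x < M.W → s (b * M.W + x) = (Xs b, x))
    (hbad : ∀ m, ¬ ((M.drain hG1).frm lt eta inj ne).GoodE
      ((List.range m).map fun i => s (i + 1)))
    (b : ℕ) (q : S) (w : ℤ) (h : M.Path Xs b q w) (he : M.ex (Xs b) q) : w < 0 := by
  by_contra hw
  push Not at hw
  obtain ⟨k, rfl⟩ : ∃ k : ℕ, w = k := ⟨w.toNat, by omega⟩
  have h1 := M.drain_path hG1 Xs b q k h
  have h2 := Path.step (M := M.drain hG1) b (some q) k 0 0 none h1 (by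
    change _ ∈ (M.del (Xs b) q).map _ ++ _
    rw [List.mem_append, if_pos he]
    right
    simp)
  have h3 := M.drain_lower hG1 Xs (b + 1) _ h2 k
  have e : (k : ℤ) + (0 : ℕ) - (0 : ℕ) - k = 0 := by push_cast; ring
  rw [e] at h3
  exact (M.drain hG1).path_ne lt eta inj ne Xs s h0 hs hbad _ _ h3 rfl

/-- a potential of the automaton gives badness for the drained one -/
theorem drain_bad (hG1 : 1 ≤ M.G) (Xs : ℕ → K) (hX0 : Xs 0 = M.ini)
    (hrho : ∀ b, M.rho (Xs b) (Xs (b + 1))) (V : ℕ → S → ℤ)
    (hV : ∀ b q g l q', (g, l, q') ∈ M.del (Xs b) q → (g : ℤ) - l + V (b + 1) q' ≤ V b q)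
    (hE : ∀ b q, M.ex (Xs b) q → 0 ≤ V b q) (h1 : V 0 M.m1 ≤ -1) (m : ℕ) :
    ¬ ((M.drain hG1).frm lt eta inj ne).GoodI
      ((List.range m).map fun i => M.cellseq Xs (i + 1)) := by
  refine (M.drain hG1).badB lt eta inj ne Xs hX0 hrho
    (fun b q => match q with
      | none => 0
      | some q => V b q) ?_ ?_ h1 m
  · rintro b (_ | q) g l q' h
    · change _ ∈ [((0 : ℕ), (0 : ℕ), (none : Option S)), (0, 1, none)] at h
      simp only [List.mem_cons, List.not_mem_nil, or_false, Prod.mk.injEq] at h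
      rcases h with ⟨rfl, rfl, rfl⟩ | ⟨rfl, rfl, rfl⟩ <;> simp
    · change _ ∈ (M.del (Xs b) q).map _ ++ _ at h
      simp only [List.mem_append, List.mem_map, Prod.mk.injEq] at h
      rcases h with ⟨⟨g1, l1, q1⟩, h2, rfl, rfl, rfl⟩ | h
      · exact hV b q g1 l1 q1 h2
      · split_ifs at h with he
        · simp only [List.mem_cons, List.not_mem_nil, or_false, Prod.mk.injEq] at h
          obtain ⟨rfl, rfl, rfl⟩ := h
          have := hE b q he
          simpa using this
        · simp at h
  · intro b q h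
    obtain rfl : q = none := h
    simp

end Blk

end Pool.Agent.Helper948.Conj
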