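import Pool.Agent.H390R3.Cj.NoSolB
import Pool.Agent.Helper948.Conj.Blk

set_option autoImplicit false

/-! The potential argument for the second frame. -/

namespace Pool.Agent.Helper948.Conj

namespace Frm

variable {α C : Type} (F : Frm α C)

theorem facB_nil {n : ℕ} (h : Fac F.Y2 n []) : n = 0 := by
  have := Fac.length_le F.Y2_ne h
  simpa using this

theorem facB_aligned (s : ℕ → C) (i k n : ℕ) (h : Fac F.Y2 n (F.txt s (i * F.L) (k * F.L))) :
    n = k := by
  rw [txt_Tl] at h
  rw [← List.append_nil (F.Tl _)] at h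
  obtain ⟨n', h1, h2⟩ := F.facB_Tl _ h
  have := F.facB_nil h2
  simp at h1
  omega

theorem potentialB (s : ℕ → C) (hc : ∀ i, F.R (s i) (s (i + 1)))
    (Val : ℕ → ℤ → Prop)
    (hv : ∀ P φ, Val P φ → 1 ≤ P % F.L ∧ P % F.L + 1 < F.L)
    (hs : ∀ P φ y l, Val P φ → F.base y → y = F.lt (s (P / F.L)) (P % F.L) :: l →
      ((P + y.length) % F.L = 0 ∧
        1 ≤ φ + ((P + y.length) / F.L : ℕ) - (P / F.L : ℕ)) ∨
      ∃ φ', Val (P + y.length) φ' ∧
        1 + φ' ≤ φ + ((P + y.length) / F.L : ℕ) - (P / F.L : ℕ)) {n : ℕ} {w : List α}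
    (h : Fac F.Y2 n w) : ∀ P len φ, Val P φ → w = F.txt s P len → (P + len) % F.L = 0 →
      (n : ℤ) ≤ φ + ((P + len) / F.L : ℕ) - (P / F.L : ℕ) := by
  have hoL := F.hoL
  have ho := F.ho
  induction h with
  | nil =>
    intro P len φ hval hw hm
    have := congrArg List.length hw
    rw [txt_length] at this
    simp only [List.length_nil] at this
    subst this
    have := hv P φ hval
    rw [add_zero] at hm
    omega
  | @cons y w n hy h ih =>
    intro P len φ hval hw hm
    obtain ⟨h1, h2, h3⟩ := F.txt_split s P len y w hw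
    have hval' := hv P φ hval
    obtain ⟨l, hl⟩ : ∃ l, y = F.lt (s (P / F.L)) (P % F.L) :: l := by
      cases hlen : y.length with
      | zero => exact absurd (List.length_eq_zero_iff.1 hlen) (F.Y2_ne _ hy)
      | succ k =>
        rw [hlen, txt_succ] at h2
        exact ⟨_, h2⟩
    have hPdm := Nat.div_add_mod P F.L
    have hsuf : ∀ (b : C) (u : List α), y = F.p b ++ u → F.lt b F.o = F.lt (s (P / F.L)) (P % F.L) →
        b = s (P / F.L) ∧ u = F.txt s ((P / F.L + 1) * F.L) u.length := by
      intro b u hyu hb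
      obtain ⟨hb1, hb2⟩ := F.inj _ _ _ _ hb
      refine ⟨hb1, ?_⟩
      have e1 : F.p b ++ u = F.txt s P y.length := by rw [← hyu]; exact h2
      obtain ⟨_, _, h5⟩ := F.txt_split s P _ _ _ e1
      have e2 : (F.p b).length = F.L - F.o := F.seg_length _ _ _
      rw [e2] at h5
      have e3 : P + (F.L - F.o) = (P / F.L + 1) * F.L := by
        have : (P / F.L + 1) * F.L = F.L * (P / F.L) + F.L := by ring
        rw [this]
        omega
      rw [e3] at h5
      rw [h5, txt_length]
    cases hy with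
    | core _ hy =>
      cases hy with
      | eta => exact absurd (List.cons.inj hl).1.symm (F.ne _ _)
      | tok d _ =>
        rw [T_cons] at hl
        have := (F.inj _ _ _ _ (List.cons.inj hl).1).2
        omega
      | base _ hy =>
        rcases hs P φ y l hval hy hl with ⟨h4, h5⟩ | ⟨φ', h4, h5⟩
        · have e1 := Nat.div_add_mod (P + y.length) F.L
          rw [h4, add_zero] at e1
          have e2 := Nat.div_add_mod (P + len) F.L
          rw [hm, add_zero] at e2
          have e5 : (P + y.length) / F.L ≤ (P + len) / F.L := Nat.div_le_div_right (by omega)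
          have e3 : len - y.length = ((P + len) / F.L - (P + y.length) / F.L) * F.L := by
            rw [Nat.sub_mul, mul_comm, e2, mul_comm, e1]
            omega
          have e4 : P + y.length = (P + y.length) / F.L * F.L := by rw [mul_comm]; exact e1.symm
          rw [h3, e3] at h
          rw [e4] at h
          have h6 := F.facB_aligned s _ _ _ h
          rw [← e4] at h6
          generalize (P + y.length) / F.L = A at h5 h6 e5
          generalize (P + len) / F.L = A' at h6 e5 ⊢
          generalize P / F.L = A'' at h5 ⊢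
          omega
        · have e1 : P + y.length + (len - y.length) = P + len := by omega
          have h6 := ih (P + y.length) (len - y.length) φ' h4 h3 (by rw [e1]; exact hm)
          rw [e1] at h6
          generalize (P + y.length) / F.L = A at h5 h6
          generalize (P + len) / F.L = A' at h6 ⊢
          generalize P / F.L = A'' at h5 ⊢
          omega
      | w0 b _ => exact absurd (List.cons.inj hl).1.symm (F.ne _ _)
      | w1 c _ _ => exact absurd (List.cons.inj hl).1.symm (F.ne _ _)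
      | w2 b b' _ _ =>
        exfalso
        have hl' := hl
        rw [p_cons, List.cons_append] at hl'
        obtain ⟨hb1, hu1⟩ := hsuf b (F.p b') rfl (List.cons.inj hl').1
        rw [p_cons, List.length_cons, txt_succ] at hu1
        have ha := (List.cons.inj hu1).1
        rw [Nat.mul_div_cancel _ F.Lpos, Nat.mul_mod_left] at ha
        have := (F.inj _ _ _ _ ha).2
        omega
    | h b u hb hu hR =>
      exfalso
      have hl' := hl
      rw [p_cons, List.cons_append] at hl'
      obtain ⟨hb1, hu1⟩ := hsuf b u rfl (List.cons.inj hl').1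
      obtain ⟨a, u', rfl⟩ := List.exists_cons_of_ne_nil (F.Cr_ne u hu)
      rw [List.length_cons, txt_succ] at hu1
      have ha := (List.cons.inj hu1).1
      rw [Nat.mul_div_cancel _ F.Lpos, Nat.mul_mod_left] at ha
      subst ha
      generalize hw' : F.lt (s (P / F.L + 1)) 0 :: u' = w' at hu
      cases hu with
      | eta => exact absurd (List.cons.inj hw').1 (F.ne _ _)
      | tok d hd =>
        have h9 := hw'
        rw [T_cons] at h9
        have := (F.inj _ _ _ _ (List.cons.inj h9).1).1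
        refine hR d ?_ hw'
        rw [← this, hb1]
        exact hc _
      | base _ hy =>
        obtain ⟨_, _, _, h4, _, h5⟩ := F.hb _ hy
        rw [h5] at hw'
        have := (F.inj _ _ _ _ (List.cons.inj hw').1).2
        omega
      | w0 b _ => exact absurd (List.cons.inj hw').1 (F.ne _ _)
      | w1 c _ _ => exact absurd (List.cons.inj hw').1 (F.ne _ _)
      | w2 b' _ _ _ =>
        rw [p_cons, List.cons_append] at hw'
        have := (F.inj _ _ _ _ (List.cons.inj hw').1).2
        omega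

/-- a potential certifies that an infinite sequence is bad -/
theorem bad_of_potentialB (s : ℕ → C) (h0 : s 0 = F.star) (hc : ∀ i, F.R (s i) (s (i + 1)))
    (Val : ℕ → ℤ → Prop)
    (hv : ∀ P φ, Val P φ → 1 ≤ P % F.L ∧ P % F.L + 1 < F.L)
    (hs : ∀ P φ y l, Val P φ → F.base y → y = F.lt (s (P / F.L)) (P % F.L) :: l →
      ((P + y.length) % F.L = 0 ∧
        1 ≤ φ + ((P + y.length) / F.L : ℕ) - (P / F.L : ℕ)) ∨
      ∃ φ', Val (P + y.length) φ' ∧
        1 + φ' ≤ φ + ((P + y.length) / F.L : ℕ) - (P / F.L : ℕ))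
    (hi : Val F.o (-2)) (m : ℕ) : ¬ F.GoodI ((List.range m).map fun i => s (i + 1)) := by
  rintro ⟨n, hn, h⟩
  have hoL := F.hoL
  rw [F.txt_good s h0] at h
  have e1 : F.o + ((m + 1) * F.L - F.o) = (m + 1) * F.L := by
    have : (m + 1) * F.L = m * F.L + F.L := by ring
    omega
  have := F.potentialB s hc Val hv hs h F.o _ (-2) hi rfl (by rw [e1]; simp)
  rw [e1, Nat.mul_div_cancel _ F.Lpos, Nat.div_eq_of_lt (by omega)] at this
  simp only [List.length_map, List.length_range] at hn
  push_cast at this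
  omega

end Frm

namespace Blk

variable {K S : Type} (M : Blk K S) {α : Type} (lt : K × ℕ → ℕ → α)

variable (eta : α) (inj : ∀ c i d j, lt c i = lt d j → c = d ∧ i = j)
  (ne : ∀ c i, lt c i ≠ eta)

/-- a potential on blocks certifies that the sequence is bad -/
theorem badB (Xs : ℕ → K) (hX0 : Xs 0 = M.ini) (hrho : ∀ b, M.rho (Xs b) (Xs (b + 1)))
    (V : ℕ → S → ℤ)
    (hV : ∀ b q g l q', (g, l, q') ∈ M.del (Xs b) q → (g : ℤ) - l + V (b + 1) q' ≤ V b q)
    (hE : ∀ b q, M.ex (Xs b) q → 0 ≤ V b q) (h1 : V 0 M.m1 ≤ -1) (m : ℕ) :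
    ¬ (M.frm lt eta inj ne).GoodI ((List.range m).map fun i => M.cellseq Xs (i + 1)) := by
  have hL0 : 0 < M.L := by unfold L; omega
  have hdm : ∀ i t, t < M.L → (i * M.L + t) / M.L = i ∧ (i * M.L + t) % M.L = t := by
    intro i t ht
    constructor
    · rw [show i * M.L + t = t + M.L * i by ring, Nat.add_mul_div_left _ _ hL0,
        Nat.div_eq_of_lt ht, zero_add]
    · rw [show i * M.L + t = t + M.L * i by ring, Nat.add_mul_mod_self_left,
        Nat.mod_eq_of_lt ht]
  refine Frm.bad_of_potentialB (M.frm lt eta inj ne) (M.cellseq Xs) ?_ (M.cellseq_legal Xs hrho)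
    (fun P φ => ∃ b x q g, x < M.W ∧ g ≤ M.G ∧ (x ≠ 0 → g = 0) ∧
      P = (b * M.W + x) * M.L + (M.tq q + g) ∧
      (if x = 0 then V b q else V (b + 1) q) - 1 - g ≤ φ) ?_ ?_ ?_ m
  · have := M.cellseq_eq Xs 0 0 M.Wpos
    rw [zero_mul, zero_add, hX0] at this
    exact this
  · rintro P φ ⟨b, x, q, g, hx, hg, _, rfl, _⟩
    have h4 := M.tq_lt q g hg
    have h5 := M.tq_pos q
    change 1 ≤ _ % M.L ∧ _ % M.L + 1 < M.L
    rw [(hdm _ _ (by omega)).2]
    omega
  · rintro P φ y l ⟨b, x, q, g, hx, hg, hxg, rfl, hφ⟩ hy hyl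
    have h4 := M.tq_lt q g hg
    have h5 := M.tq_pos q
    change M.Base lt y at hy
    change y = lt (M.cellseq Xs (_ / M.L)) (_ % M.L) :: l at hyl
    change ((_ + y.length) % M.L = 0 ∧ 1 ≤ φ + ((_ + y.length) / M.L : ℕ) - (_ / M.L : ℕ)) ∨
      ∃ φ', _ ∧ 1 + φ' ≤ φ + ((_ + y.length) / M.L : ℕ) - (_ / M.L : ℕ)
    obtain ⟨hd1, hd2⟩ := hdm (b * M.W + x) (M.tq q + g) (by omega)
    rw [hd1, hd2, M.cellseq_eq Xs b x hx] at hyl
    rw [hd1]
    cases hy with
    | cruise X x' d q' h6 h7 h8 =>
      have h9 := M.tq_lt q' 0 (Nat.zero_le _)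
      rw [show seg lt (X, x') (M.tq q') M.L = lt (X, x') (M.tq q') ::
        seg lt (X, x') (M.tq q' + 1) M.L from (M.frm lt eta inj ne).seg_cons _ _ _ (by
          omega)] at hyl
      obtain ⟨e1, e2⟩ := inj _ _ _ _ (List.cons.inj hyl).1
      obtain ⟨rfl, rfl⟩ := Prod.mk.inj e1
      obtain rfl := hxg (by omega)
      obtain ⟨rfl, _⟩ := M.tq_inj q' q 0 0 (Nat.zero_le _) (Nat.zero_le _) (by simpa using e2)
      right
      have hlen : (seg lt (Xs b, x') (M.tq q') M.L ++ seg lt d 0 (M.tq q')).length = M.L := by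
        simp [seg]; omega
      rw [hlen]
      have e3 : (b * M.W + x') * M.L + (M.tq q' + 0) + M.L =
          (b * M.W + x' + 1) * M.L + (M.tq q' + 0) := by ring
      refine ⟨φ, ?_, ?_⟩
      · rw [if_neg (by omega)] at hφ
        by_cases hx1 : x' + 1 < M.W
        · refine ⟨b, x' + 1, q', 0, hx1, Nat.zero_le _, fun _ => rfl, ?_, ?_⟩
          · rw [e3]; ring
          · rw [if_neg (by omega)]; exact hφ
        · have hx2 : x' + 1 = M.W := by omega
          refine ⟨b + 1, 0, q', 0, M.Wpos, Nat.zero_le _, fun _ => rfl, ?_, ?_⟩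
          · rw [e3, ← hx2]; ring
          · rw [if_pos rfl]; exact hφ
      · rw [e3, (hdm _ _ (by omega)).1]
        push_cast
        omega
    | inside X q1 g1 l1 q2 g' h6 h7 =>
      obtain ⟨h8, _⟩ := M.hG _ _ _ _ _ h6
      obtain ⟨e1, e2⟩ := inj _ _ _ _ (List.cons.inj hyl).1
      obtain ⟨rfl, rfl⟩ := Prod.mk.inj e1
      obtain ⟨rfl, rfl⟩ := M.tq_inj _ _ _ _ (by omega) hg e2
      right
      rw [List.length_singleton]
      refine ⟨φ - 1, ⟨b, 0, q1, g' + 1, M.Wpos, by omega, fun h => absurd rfl h, by ring, ?_⟩, ?_⟩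
      · rw [if_pos rfl] at hφ ⊢
        push_cast
        omega
      · rw [show (b * M.W + 0) * M.L + (M.tq q1 + g') + 1 =
          (b * M.W + 0) * M.L + (M.tq q1 + g' + 1) by ring, (hdm _ _ (by omega)).1]
        push_cast
        omega
    | jump X q1 g1 l1 q2 h6 =>
      obtain ⟨h8, h8'⟩ := M.hG _ _ _ _ _ h6
      have h9 := M.tq_lt q1 g1 h8
      have h10 := M.tq_lt q2 0 (Nat.zero_le _)
      have hLL : M.L ≤ (l1 + 1) * M.L := by rw [add_mul]; omega
      obtain ⟨r, hr⟩ := wt_cons lt M.L (fun x => (X, x)) (M.tq q1 + g1)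
        ((l1 + 1) * M.L + M.tq q2 - (M.tq q1 + g1)) (by omega) (by omega)
      rw [hr] at hyl
      obtain ⟨e1, e2⟩ := inj _ _ _ _ (List.cons.inj hyl).1
      obtain ⟨rfl, rfl⟩ := Prod.mk.inj e1
      obtain ⟨rfl, rfl⟩ := M.tq_inj _ _ _ _ h8 hg e2
      right
      rw [wt_length]
      have e3 : (b * M.W + 0) * M.L + (M.tq q1 + g1) +
          ((l1 + 1) * M.L + M.tq q2 - (M.tq q1 + g1)) =
          (b * M.W + (l1 + 1)) * M.L + (M.tq q2 + 0) := by
        rw [add_mul (b * M.W) (l1 + 1)]
        have : (b * M.W + 0) * M.L = b * M.W * M.L := by ring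
        rw [this]
        omega
      have h11 := hV b q1 g1 l1 q2 h6
      refine ⟨V (b + 1) q2 - 1, ⟨b, l1 + 1, q2, 0, by unfold W; omega, Nat.zero_le _,
        fun _ => rfl, e3, ?_⟩, ?_⟩
      · rw [if_neg (by omega)]
        simp
      · rw [e3, (hdm _ _ (by omega)).1]
        rw [if_pos rfl] at hφ
        push_cast
        omega
    | exit X q1 h6 =>
      have h9 := M.tq_lt q1 0 (Nat.zero_le _)
      obtain ⟨r, hr⟩ := wt_cons lt M.L (fun x => (X, x)) (M.tq q1)
        (2 * M.L - M.tq q1) (by omega) (by omega)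
      rw [hr] at hyl
      obtain ⟨e1, e2⟩ := inj _ _ _ _ (List.cons.inj hyl).1
      obtain ⟨rfl, rfl⟩ := Prod.mk.inj e1
      obtain ⟨rfl, rfl⟩ := M.tq_inj q1 q 0 g (Nat.zero_le _) hg (by simpa using e2)
      left
      rw [wt_length]
      have e3 : (b * M.W + 0) * M.L + (M.tq q1 + 0) + (2 * M.L - M.tq q1) =
          (b * M.W + 2) * M.L + 0 := by
        rw [add_mul (b * M.W) 2]
        have : (b * M.W + 0) * M.L = b * M.W * M.L := by ring
        rw [this]
        omega
      rw [e3, (hdm _ _ hL0).1, (hdm _ _ hL0).2]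
      have h11 := hE b q1 h6
      rw [if_pos rfl] at hφ
      refine ⟨rfl, ?_⟩
      push_cast
      push_cast at hφ
      omega
  · refine ⟨0, 0, M.m1, 0, M.Wpos, Nat.zero_le _, fun _ => rfl, ?_, ?_⟩
    · change M.tq M.m1 = _
      ring
    · rw [if_pos rfl]
      push_cast
      omega

end Blk

end Pool.Agent.Helper948.Conj
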