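import Pool.Agent.H390R3.Cj.CompB

set_option autoImplicit false

/-! The lists are primitive recursive in the input. -/

namespace Pool.Agent.Helper948.Conj

namespace Dat

variable (D : Dat)

open Primrec

theorem LnB_pr : Primrec D.LnB :=
  nat_add.comp (nat_mul.comp (const 10) (nat_add.comp D.Gn_pr (const 1))) (const 2)

theorem tnB_pr : Primrec₂ D.tnB := by
  refine nat_add.comp (const 1) (nat_mul.comp ?_ (nat_add.comp (D.Gn_pr.comp fst) (const 1)))
  exact (dom_finite sidxB).comp snd

theorem dlm_pr : Primrec fun a : (ℕ × D.Bk) × St =>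
      (D.dl a.1.1 a.1.2 a.2).map (fun t => (t.1, t.2.1, some t.2.2)) := by
  refine list_map (f := fun a : (ℕ × D.Bk) × St => D.dl a.1.1 a.1.2 a.2)
    (g := fun _ t => (t.1, t.2.1, some t.2.2)) D.dl_pr ?_
  exact pair (fst.comp snd) (pair (fst.comp (snd.comp snd))
      (option_some.comp (snd.comp (snd.comp snd))))

theorem dle_pr : Primrec fun a : (ℕ × D.Bk) × St =>
      (if D.exb a.1.2 a.2 = true then [((0 : ℕ), (0 : ℕ), (none : Option St))] else []) := by
  have hex : Primrec fun p : D.Bk × St => D.exb p.1 p.2 := dom_finite _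
  have hp2 : Primrec fun a : (ℕ × D.Bk) × St => (a.1.2, a.2) :=
    pair (snd.comp fst) snd
  have hex2 : Primrec fun a : (ℕ × D.Bk) × St => D.exb a.1.2 a.2 :=
    Primrec.comp (f := fun p : D.Bk × St => D.exb p.1 p.2) hex hp2
  exact Primrec.ite (Primrec.eq.comp hex2 (const true)) (const _) (const _)

/-- the transitions out of the old states -/
def dlA (a : (ℕ × D.Bk) × St) : List (ℕ × ℕ × Option St) :=
  (D.dl a.1.1 a.1.2 a.2).map (fun t => (t.1, t.2.1, some t.2.2)) ++
      (if D.exb a.1.2 a.2 = true then [((0 : ℕ), (0 : ℕ), (none : Option St))] else [])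

theorem dla_pr : Primrec D.dlA := list_append.comp D.dlm_pr D.dle_pr

/-- the transitions out of the drain state -/
def dlN : List (ℕ × ℕ × Option St) := [(0, 0, none), (0, 1, none)]

theorem dlB_eq' (p : (ℕ × D.Bk) × Option St) : D.dlB p.1.1 p.1.2 p.2 =
    Option.casesOn p.2 dlN (fun q => D.dlA (p.1, q)) := by
  rcases p with ⟨⟨N, X⟩, _ | q⟩ <;> rfl

theorem dlB_pr : Primrec fun p : (ℕ × D.Bk) × Option St => D.dlB p.1.1 p.1.2 p.2 := by
  have hp : Primrec fun a : ((ℕ × D.Bk) × Option St) × St => (a.1.1, a.2) :=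
    pair (fst.comp fst) snd
  have h1 : Primrec₂ fun (p : (ℕ × D.Bk) × Option St) (q : St) => D.dlA (p.1, q) :=
    Primrec.comp (f := D.dlA) D.dla_pr hp
  have h2 := option_casesOn (o := fun p : (ℕ × D.Bk) × Option St => p.2)
    (f := fun _ => dlN) (g := fun p q => D.dlA (p.1, q)) snd (const dlN) h1
  exact h2.of_eq (fun p => (D.dlB_eq' p).symm)

theorem baseB1_pr : Primrec D.baseB1 := by
  unfold baseB1
  refine list_flatMap D.cels_pr ?_
  refine list_flatMap (D.cels_pr.comp fst) ?_
  refine list_flatMap (const _) ?_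
  have hN : Primrec fun p : ((ℕ × D.Cel) × D.Cel) × Option St => p.1.1.1 := fst.comp (fst.comp fst)
  have hc : Primrec fun p : ((ℕ × D.Cel) × D.Cel) × Option St => p.1.1.2 := snd.comp (fst.comp fst)
  have hd : Primrec fun p : ((ℕ × D.Cel) × D.Cel) × Option St => p.1.2 := snd.comp fst
  have hq : Primrec fun p : ((ℕ × D.Cel) × D.Cel) × Option St => p.2 := snd
  have ht := D.tnB_pr.comp hN hq
  refine Primrec.ite (Primrec.eq.comp (snd.comp hc) (const 0)) (const _) ?_
  refine list_cons.comp ?_ (const _)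
  exact list_append.comp (D.sg_pr' hc ht (D.LnB_pr.comp hN)) (D.sg_pr' hd (const 0) ht)

theorem baseB2_pr : Primrec D.baseB2 := by
  unfold baseB2
  refine list_flatMap (const _) ?_
  refine list_flatMap (const _) ?_
  refine list_flatMap ?_ ?_
  · exact D.dlB_pr.comp (pair (pair (fst.comp fst) (snd.comp fst)) snd)
  · refine list_map (list_range.comp (fst.comp snd)) ?_
    have hN : Primrec fun p : (((ℕ × D.Bk) × Option St) × (ℕ × ℕ × Option St)) × ℕ =>
      p.1.1.1.1 := fst.comp (fst.comp (fst.comp fst))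
    have hX : Primrec fun p : (((ℕ × D.Bk) × Option St) × (ℕ × ℕ × Option St)) × ℕ =>
      p.1.1.1.2 := snd.comp (fst.comp (fst.comp fst))
    have hq : Primrec fun p : (((ℕ × D.Bk) × Option St) × (ℕ × ℕ × Option St)) × ℕ => p.1.1.2 :=
      snd.comp (fst.comp fst)
    refine list_cons.comp ?_ (const _)
    exact D.code_pr.comp (pair hX (const 0)) (nat_add.comp (D.tnB_pr.comp hN hq) snd)

theorem baseB3_pr : Primrec D.baseB3 := by
  unfold baseB3
  refine list_flatMap (const _) ?_
  refine list_flatMap (const _) ?_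
  refine list_map ?_ ?_
  · exact D.dlB_pr.comp (pair (pair (fst.comp fst) (snd.comp fst)) snd)
  · have hN : Primrec fun p : ((ℕ × D.Bk) × Option St) × (ℕ × ℕ × Option St) => p.1.1.1 :=
      fst.comp (fst.comp fst)
    have hX : Primrec fun p : ((ℕ × D.Bk) × Option St) × (ℕ × ℕ × Option St) => p.1.1.2 :=
      snd.comp (fst.comp fst)
    have hq : Primrec fun p : ((ℕ × D.Bk) × Option St) × (ℕ × ℕ × Option St) => p.1.2 :=
      snd.comp fst
    have hg : Primrec fun p : ((ℕ × D.Bk) × Option St) × (ℕ × ℕ × Option St) => p.2.1 :=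
      fst.comp snd
    have hl : Primrec fun p : ((ℕ × D.Bk) × Option St) × (ℕ × ℕ × Option St) => p.2.2.1 :=
      fst.comp (snd.comp snd)
    have hq' : Primrec fun p : ((ℕ × D.Bk) × Option St) × (ℕ × ℕ × Option St) => p.2.2.2 :=
      snd.comp (snd.comp snd)
    have hL := D.LnB_pr.comp hN
    have ht := nat_add.comp (D.tnB_pr.comp hN hq) hg
    refine D.wx_pr' hX hL ht ?_
    exact nat_sub.comp (nat_add.comp (nat_mul.comp (nat_add.comp hl (const 1)) hL)
      (D.tnB_pr.comp hN hq')) ht

theorem baseB4_pr : Primrec D.baseB4 := by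
  unfold baseB4
  refine list_map (const _) ?_
  have hN : Primrec fun p : ℕ × D.Bk => p.1 := fst
  have hX : Primrec fun p : ℕ × D.Bk => p.2 := snd
  have hL := D.LnB_pr.comp hN
  have ht := D.tnB_pr.comp hN (const none)
  exact D.wx_pr' hX hL ht (nat_sub.comp (nat_mul.comp (const 2) hL) ht)

theorem baseLB_pr : Primrec D.baseLB :=
  list_append.comp (list_append.comp (list_append.comp D.baseB1_pr D.baseB2_pr) D.baseB3_pr)
    D.baseB4_pr

theorem ToB_pr : Primrec₂ D.ToB := D.sg_pr' snd (const 0) (D.LnB_pr.comp fst)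

theorem poB_pr : Primrec₂ D.poB := D.sg_pr' snd (const 1) (D.LnB_pr.comp fst)

theorem w0L_pr : Primrec D.w0L := by
  unfold w0L
  refine list_map D.cels_pr ?_
  exact list_cons.comp (const 0) (list_append.comp (D.poB_pr.comp fst (const _))
    (D.poB_pr.comp fst snd))

theorem w1L_pr : Primrec D.w1L := by
  unfold w1L
  refine list_flatMap D.cels_pr ?_
  have hR : PrimrecPred fun p : ℕ × D.Cel => D.Rc p.1 D.stc p.2 :=
    D.Rc_pr.comp (pair (pair fst (const D.stc)) snd)
  refine Primrec.ite hR ?_ (const _)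
  refine list_cons.comp ?_ (const _)
  exact list_cons.comp (const 0) (list_append.comp (D.poB_pr.comp fst (const _))
    (D.sg_pr' snd (const 0) (const 1)))

theorem w2L_pr : Primrec D.w2L := by
  unfold w2L
  refine list_flatMap D.cels_pr ?_
  refine list_map (D.cels_pr.comp fst) ?_
  exact list_append.comp (D.poB_pr.comp (fst.comp fst) (snd.comp fst))
    (D.poB_pr.comp (fst.comp fst) snd)

theorem CL0_pr : Primrec D.CL0 := by
  unfold CL0
  refine list_cons.comp (const _) ?_
  exact list_append.comp (list_append.comp (list_append.comp D.baseLB_pr D.w0L_pr) D.w1L_pr)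
    D.w2L_pr

theorem yB3_pr : Primrec D.yB3 := by
  unfold yB3
  refine list_flatMap D.cels_pr ?_
  refine list_map (D.CL0_pr.comp fst) ?_
  exact list_append.comp (D.poB_pr.comp (fst.comp fst) (snd.comp fst)) snd

theorem yB4_pr : Primrec D.yB4 := by
  unfold yB4
  refine list_flatMap D.cels_pr ?_
  refine list_flatMap (D.cels_pr.comp fst) ?_
  refine Primrec.ite D.Rc_pr (const _) ?_
  refine list_cons.comp ?_ (const _)
  exact list_append.comp (D.poB_pr.comp (fst.comp fst) (snd.comp fst))
    (D.ToB_pr.comp (fst.comp fst) snd)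

theorem YLB_pr : Primrec D.YLB := by
  unfold YLB
  exact list_append.comp (list_append.comp (list_append.comp D.CL0_pr
    (list_map D.cels_pr D.ToB_pr)) D.yB3_pr) D.yB4_pr

theorem XLB_pr : Primrec D.XLB := by
  unfold XLB
  refine list_cons.comp (list_cons.comp (const 0) ?_) D.YLB_pr
  exact D.poB_pr.comp Primrec.id (const _)

/-- the size of the alphabet -/
def knB (N : ℕ) : ℕ := bnd (D.XLB N).flatten

theorem knB_pr : Primrec D.knB := bnd_pr.comp (list_flatten.comp D.XLB_pr)

end Dat

end Pool.Agent.Helper948.Conj
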